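import Mathlib

/-!
# Algebraic independence of solutions of additive difference equations of first order
-/

set_option autoImplicit false

namespace Pool.Agent.X142.AZ

open MvPolynomial
open scoped MonomialOrder

section

variable {κ : Type} [Fintype κ] {K : Type} [Field K] (τ : K →+* K) (a : κ → K)

/-- the shift -/
noncomputable def Sh : MvPolynomial κ K →+* MvPolynomial κ K :=
  eval₂Hom (C.comp τ) (fun k => X k - C (a k))

lemma Sh_C (r : K) : Sh τ a (C r) = C (τ r) := by simp [Sh]

lemma Sh_X (k : κ) : Sh τ a (X k) = X k - C (a k) := by simp [Sh]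

lemma Sh_pderiv (k : κ) (P : MvPolynomial κ K) :
    pderiv k (Sh τ a P) = Sh τ a (pderiv k P) := by
  classical
  induction P using MvPolynomial.induction_on with
  | C r => simp [Sh_C]
  | add p q hp hq => simp [hp, hq]
  | mul_X p j hp =>
    have h1 : pderiv k (X j - C (a j) : MvPolynomial κ K) = Sh τ a (pderiv k (X j)) := by
      rw [map_sub, pderiv_C, sub_zero, pderiv_X]
      by_cases h : j = k
      · subst h
        simp
      · rw [Pi.single_eq_of_ne h, map_zero]
    rw [map_mul, Sh_X, pderiv_mul, hp, h1, pderiv_mul, map_add, map_mul, map_mul, Sh_X]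

/-- invariant polynomials are constants -/
theorem const_of_inv [CharZero K]
    (H : ∀ (g : K) (c : κ → K), (∀ k, τ (c k) = c k) → τ g - g = ∑ k, c k * a k → ∀ k, c k = 0)
    (n : ℕ) : ∀ P : MvPolynomial κ K, P.totalDegree ≤ n → Sh τ a P = P →
      ∃ c : K, P = C c ∧ τ c = c := by
  classical
  induction n with
  | zero =>
    intro P hP hinv
    have h1 := totalDegree_eq_zero_iff_eq_C.1 (Nat.le_zero.1 hP)
    refine ⟨coeff 0 P, h1, ?_⟩
    rw [h1, Sh_C] at hinv
    exact C_injective κ K hinv
  | succ n ih =>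
    intro P hP hinv
    have hdeg : ∀ k, (pderiv k P).totalDegree ≤ n := by
      intro k
      refine Finset.sup_le fun m hm => ?_
      rw [mem_support_iff, coeff_pderiv] at hm
      have h1 : coeff (m + Finsupp.single k 1) P ≠ 0 := left_ne_zero_of_mul hm
      have h2 := le_totalDegree (mem_support_iff.2 h1)
      rw [Finsupp.sum_add_index' (fun _ => rfl) (fun _ _ _ => rfl), Finsupp.sum_single_index rfl] at h2
      omega
    have hc : ∀ k, ∃ c : K, pderiv k P = C c ∧ τ c = c := fun k =>
      ih _ (hdeg k) (by rw [← Sh_pderiv, hinv])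
    choose c hcP hcτ using hc
    set L : MvPolynomial κ K := P - ∑ k, C (c k) * X k with hL
    have hLd : ∀ j, pderiv j L = 0 := by
      intro j
      rw [hL, map_sub, hcP, map_sum, sub_eq_zero]
      rw [Finset.sum_eq_single j]
      · rw [pderiv_C_mul, pderiv_X_self, mul_one]
      · intro k _ hk
        rw [pderiv_C_mul, pderiv_X_of_ne hk, mul_zero]
      · intro h
        exact absurd (Finset.mem_univ j) h
    have hLC : L = C (coeff 0 L) := by
      ext m
      rw [coeff_C]
      by_cases hm : m = 0
      · rw [hm, if_pos rfl]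
      · rw [if_neg (Ne.symm hm)]
        obtain ⟨i, hi⟩ : ∃ i, m i ≠ 0 := by
          by_contra h
          push Not at h
          exact hm (Finsupp.ext h)
        have h1 := coeff_pderiv (i := i) L (m - Finsupp.single i 1)
        rw [hLd, coeff_zero] at h1
        have h2 : m - Finsupp.single i 1 + Finsupp.single i 1 = m := by
          apply tsub_add_cancel_of_le
          rw [Finsupp.single_le_iff]
          omega
        rw [h2] at h1
        rcases mul_eq_zero.1 h1.symm with h3 | h3
        · exact h3
        · exfalso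
          have h4 : ((((m - Finsupp.single i 1 : κ →₀ ℕ) i : ℕ) + 1 : ℕ) : K) = 0 := by
            push_cast
            exact h3
          exact Nat.cast_ne_zero.2 (Nat.succ_ne_zero _) h4
    set r := coeff 0 L with hr
    have hP2 : P = C r + ∑ k, C (c k) * X k := by
      rw [← hLC, hL]
      ring
    have h1 : C (τ r - r) = (C (∑ k, c k * a k) : MvPolynomial κ K) := by
      have h2 := hinv
      rw [hP2, map_add, Sh_C, map_sum] at h2
      have h3 : ∑ k, Sh τ a (C (c k) * X k) = ∑ k, C (c k) * X k - C (∑ k, c k * a k) := by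
        rw [map_sum, ← Finset.sum_sub_distrib]
        refine Finset.sum_congr rfl fun k _ => ?_
        rw [map_mul, Sh_C, Sh_X, hcτ, map_mul]
        ring
      rw [h3] at h2
      rw [map_sub]
      linear_combination h2
    have h2 := H r c hcτ (C_injective κ K h1)
    have h3 : P = C r := by
      rw [hP2]
      simp [h2]
    refine ⟨r, h3, ?_⟩
    rw [h3, Sh_C] at hinv
    exact C_injective κ K hinv

/-- the product of linear factors -/
noncomputable def Ep (d : κ →₀ ℕ) : MvPolynomial κ K := ∏ k, (X k - C (a k)) ^ d k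

lemma Ep_monic (m : MonomialOrder κ) (d : κ →₀ ℕ) : m.Monic (Ep a d) :=
  MonomialOrder.Monic.prod fun k _ => (m.monic_X_sub_C k (a k)).pow

lemma Ep_degree (m : MonomialOrder κ) (d : κ →₀ ℕ) : m.degree (Ep a d) = d := by
  classical
  unfold Ep
  rw [m.degree_prod (fun k _ => pow_ne_zero _ (m.monic_X_sub_C k (a k)).ne_zero)]
  have h1 : ∀ k, m.degree ((X k - C (a k) : MvPolynomial κ K) ^ d k) = Finsupp.single k (d k) := by
    intro k
    rw [m.degree_pow, m.degree_X_sub_C, Finsupp.smul_single]
    simp
  rw [Finset.sum_congr rfl fun k _ => h1 k]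
  exact Finsupp.univ_sum_single d

lemma Sh_monomial (d : κ →₀ ℕ) (c : K) : Sh τ a (monomial d c) = C (τ c) * Ep a d := by
  unfold Sh Ep
  rw [coe_eval₂Hom, eval₂_monomial, Finsupp.prod_fintype _ _ (fun _ => pow_zero _)]
  rfl

lemma coeff_Sh (P : MvPolynomial κ K) (b : κ →₀ ℕ) :
    coeff b (Sh τ a P) = ∑ d ∈ P.support, τ (coeff d P) * coeff b (Ep a d) := by
  conv_lhs => rw [← support_sum_monomial_coeff P]
  rw [map_sum, coeff_sum]
  refine Finset.sum_congr rfl fun d _ => ?_
  rw [Sh_monomial, coeff_C_mul]

/-- an ideal stable under the shift is trivial -/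
theorem ideal_trivial [CharZero K] (m : MonomialOrder κ)
    (H : ∀ (g : K) (c : κ → K), (∀ k, τ (c k) = c k) → τ g - g = ∑ k, c k * a k → ∀ k, c k = 0)
    (I : Ideal (MvPolynomial κ K)) (hI : (1 : MvPolynomial κ K) ∉ I)
    (hS : ∀ P ∈ I, Sh τ a P ∈ I) (P : MvPolynomial κ K) (hP : P ∈ I) : P = 0 := by
  classical
  have hwf : WellFounded (fun P Q : MvPolynomial κ K => m.degree P ≺[m] m.degree Q) :=
    InvImage.wf (fun P : MvPolynomial κ K => m.toSyn (m.degree P)) wellFounded_lt
  induction P using hwf.induction with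
  | _ P ih =>
  by_contra hP0
  set l := m.leadingCoeff P with hl
  have hl0 : l ≠ 0 := by
    rw [hl, Ne, MonomialOrder.leadingCoeff_eq_zero_iff]
    exact hP0
  set P' : MvPolynomial κ K := C l⁻¹ * P with hP'
  have hP'I : P' ∈ I := I.mul_mem_left _ hP
  have hcoef : ∀ b, coeff b P' = l⁻¹ * coeff b P := fun b => by rw [hP', coeff_C_mul]
  have hsupp : ∀ b, b ∈ P'.support ↔ b ∈ P.support := by
    intro b
    rw [mem_support_iff, mem_support_iff, hcoef]
    constructor
    · exact fun h h2 => h (by rw [h2, mul_zero])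
    · exact fun h => mul_ne_zero (inv_ne_zero hl0) h
  have hsupp' : P'.support = P.support := Finset.ext hsupp
  set d0 := m.degree P with hd0
  have hc0 : coeff d0 P' = 1 := by
    rw [hcoef]
    exact inv_mul_cancel₀ hl0
  set Q := Sh τ a P' - P' with hQ
  have hQI : Q ∈ I := I.sub_mem (hS _ hP'I) hP'I
  have hle : ∀ b ∈ P'.support, b ≼[m] d0 := by
    intro b hb
    rw [hsupp] at hb
    exact m.le_degree hb
  have hSh0 : coeff d0 (Sh τ a P') = 1 := by
    rw [coeff_Sh, Finset.sum_eq_single d0]
    · rw [hc0, map_one, one_mul]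
      have h1 := Ep_monic a m d0
      rw [MonomialOrder.Monic, MonomialOrder.leadingCoeff, Ep_degree] at h1
      exact h1
    · intro d hd hdd
      have h1 : m.degree (Ep a d) ≺[m] d0 := by
        rw [Ep_degree]
        exact lt_of_le_of_ne (hle d hd) fun h => hdd (m.toSyn.injective h)
      rw [m.coeff_eq_zero_of_lt h1, mul_zero]
    · intro h
      rw [mem_support_iff, not_not, hc0] at h
      exact absurd h one_ne_zero
  have hShle : ∀ b ∈ (Sh τ a P').support, b ≼[m] d0 := by
    intro b hb
    rw [mem_support_iff, coeff_Sh] at hb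
    obtain ⟨d, hd, hd2⟩ := Finset.exists_ne_zero_of_sum_ne_zero hb
    have h1 : b ∈ (Ep a d).support := mem_support_iff.2 (right_ne_zero_of_mul hd2)
    have h2 := m.le_degree h1
    rw [Ep_degree] at h2
    exact h2.trans (hle d hd)
  have hQ0 : Q = 0 := by
    by_contra hQne
    have h1 : m.degree Q ∈ Q.support := m.degree_mem_support hQne
    have h2 : m.degree Q ≼[m] d0 := by
      have h3 := support_sub κ (Sh τ a P') P' h1
      rcases Finset.mem_union.1 h3 with h4 | h4
      · exact hShle _ h4
      · exact hle _ h4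
    have h3 : m.degree Q ≺[m] d0 := by
      refine lt_of_le_of_ne h2 fun h => ?_
      have h4 : m.degree Q = d0 := m.toSyn.injective h
      rw [mem_support_iff, h4, hQ, coeff_sub, hSh0, hc0, sub_self] at h1
      exact h1 rfl
    exact hQne (ih Q h3 hQI)
  obtain ⟨c, hc, _⟩ := const_of_inv τ a H P'.totalDegree P' le_rfl (sub_eq_zero.1 hQ0)
  have hc1 : c ≠ 0 := by
    rintro rfl
    rw [hc, C_0, coeff_zero] at hc0
    exact zero_ne_one hc0
  apply hI
  have h1 := I.mul_mem_left (C c⁻¹) hP'I
  rw [hc, ← map_mul, inv_mul_cancel₀ hc1, map_one] at h1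
  exact h1

end

end Pool.Agent.X142.AZ
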