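import Mathlib

/-!
# The difference equation `g(z+1) - g(z) = ∑ c_k z^(-e_k)` in rational functions
-/

set_option autoImplicit false

namespace Pool.Agent.X142.AZ

open Polynomial

/-- rational functions -/
abbrev KK : Type := FractionRing ℂ[X]

/-- the shift on polynomials -/
noncomputable def sh : ℂ[X] →+* ℂ[X] := compRingHom (X + 1)

lemma eval_sh (z : ℂ) (p : ℂ[X]) : (sh p).eval z = p.eval (z + 1) := by
  have h1 : sh p = p.comp (X + 1) := rfl
  rw [h1, eval_comp, eval_add, eval_X, eval_one]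

lemma sh_inj : Function.Injective sh := by
  rw [injective_iff_map_eq_zero]
  intro p hp
  apply Polynomial.funext
  intro z
  have h1 := eval_sh (z - 1) p
  rw [hp, sub_add_cancel] at h1
  rw [← h1, eval_zero, eval_zero]

/-- the shift on rational functions -/
noncomputable def tau : KK →+* KK := IsFractionRing.map sh_inj

lemma tau_algebraMap (p : ℂ[X]) : tau (algebraMap ℂ[X] KK p) = algebraMap ℂ[X] KK (sh p) := by
  unfold tau IsFractionRing.map
  rw [IsLocalization.map_eq]

lemma sh_C (r : ℂ) : sh (C r) = C r := by simp [sh]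

lemma sh_X : sh X = X + 1 := by simp [sh]

lemma infinite_roots {q : ℂ[X]} (z : ℕ → ℂ) (hz : Function.Injective z)
    (h : ∀ n, q.eval (z n) = 0) : q = 0 :=
  Polynomial.eq_zero_of_infinite_isRoot q
    ((Set.infinite_range_of_injective hz).mono (by rintro _ ⟨n, rfl⟩; exact h n))

/-- constants of the shift -/
theorem tau_const (c : KK) (h : tau c = c) : ∃ r : ℂ, c = algebraMap ℂ[X] KK (C r) := by
  obtain ⟨p, q, hq, rfl⟩ := IsFractionRing.div_surjective (A := ℂ[X]) c
  have hq0 : q ≠ 0 := nonZeroDivisors.ne_zero hq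
  have hq1 : algebraMap ℂ[X] KK q ≠ 0 := by
    rw [Ne, FaithfulSMul.algebraMap_eq_zero_iff]
    exact hq0
  have hsq : sh q ≠ 0 := fun h => hq0 (sh_inj (by rw [h, map_zero]))
  have hq2 : algebraMap ℂ[X] KK (sh q) ≠ 0 := by
    rw [Ne, FaithfulSMul.algebraMap_eq_zero_iff]
    exact hsq
  rw [map_div₀, tau_algebraMap, tau_algebraMap, div_eq_div_iff hq2 hq1, ← map_mul, ← map_mul] at h
  have h1 : sh p * q = p * sh q := IsFractionRing.injective ℂ[X] KK h
  have h2 : ∀ z : ℂ, p.eval (z + 1) * q.eval z = p.eval z * q.eval (z + 1) := by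
    intro z
    have := congrArg (eval z) h1
    rw [eval_mul, eval_mul, eval_sh, eval_sh] at this
    exact this
  -- no roots beyond `N`
  obtain ⟨N, hN⟩ : ∃ N : ℕ, ∀ n : ℕ, N ≤ n → q.eval (n : ℂ) ≠ 0 := by
    have hfin : {n : ℕ | q.eval (n : ℂ) = 0}.Finite := by
      by_contra hinf
      apply hq0
      apply Polynomial.eq_zero_of_infinite_isRoot q
      refine (Set.Infinite.image (f := fun n : ℕ => (n : ℂ)) ?_ hinf).mono ?_
      · intro a _ b _ hab
        have h5 : (a : ℂ) = (b : ℂ) := hab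
        exact_mod_cast h5
      · rintro _ ⟨n, hn, rfl⟩
        exact hn
    obtain ⟨N, hN⟩ := hfin.bddAbove
    refine ⟨N + 1, fun n hn h => ?_⟩
    have := hN h
    omega
  set r := p.eval (N : ℂ) / q.eval (N : ℂ) with hr
  have h3 : ∀ j : ℕ, p.eval ((N + j : ℕ) : ℂ) = r * q.eval ((N + j : ℕ) : ℂ) := by
    intro j
    induction j with
    | zero =>
      rw [add_zero, hr, div_mul_cancel₀]
      exact hN N le_rfl
    | succ j ih =>
      have h4 := h2 ((N + j : ℕ) : ℂ)
      have h5 := hN (N + j) (by omega)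
      rw [ih] at h4
      have h6 : ((N + (j + 1) : ℕ) : ℂ) = ((N + j : ℕ) : ℂ) + 1 := by push_cast; ring
      rw [h6]
      apply mul_right_cancel₀ h5
      rw [h4]
      ring
  have h4 : p - C r * q = 0 := by
    apply infinite_roots (fun j : ℕ => ((N + j : ℕ) : ℂ))
    · intro a b hab
      have h6 : ((N + a : ℕ) : ℂ) = ((N + b : ℕ) : ℂ) := hab
      have h5 : N + a = N + b := by exact_mod_cast h6
      omega
    · intro j
      rw [eval_sub, eval_mul, eval_C, h3, sub_self]
  refine ⟨r, ?_⟩
  rw [div_eq_iff hq1, ← map_mul]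
  congr 1
  exact sub_eq_zero.1 h4

/-- the residual argument -/
theorem no_solution {p q W : ℂ[X]} {M : ℕ} (hM : 1 ≤ M) (hq : q ≠ 0) (hpq : IsRelPrime p q)
    (hW : W.eval 0 ≠ 0) (h : (sh p * q - p * sh q) * X ^ M = q * sh q * W) : False := by
  have hev : ∀ z : ℂ, (p.eval (z + 1) * q.eval z - p.eval z * q.eval (z + 1)) * z ^ M =
      q.eval z * q.eval (z + 1) * W.eval z := by
    intro z
    have := congrArg (eval z) h
    simp only [eval_mul, eval_sub, eval_pow, eval_X, eval_sh] at this
    exact this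
  have hcop : ∀ z, q.eval z = 0 → p.eval z ≠ 0 := by
    intro z hqz hpz
    have h1 : X - C z ∣ p := dvd_iff_isRoot.2 hpz
    have h2 : X - C z ∣ q := dvd_iff_isRoot.2 hqz
    exact not_isUnit_X_sub_C z (hpq h1 h2)
  have hR : ∀ z, z ≠ 0 → q.eval z = 0 → q.eval (z + 1) = 0 := by
    intro z hz hqz
    have h1 := hev z
    rw [hqz] at h1
    have h2 : p.eval z * q.eval (z + 1) * z ^ M = 0 := by linear_combination -h1
    rcases mul_eq_zero.1 h2 with h3 | h3
    · exact (mul_eq_zero.1 h3).resolve_left (hcop z hqz)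
    · exact absurd h3 (pow_ne_zero _ hz)
  have hL : ∀ z, z ≠ 0 → q.eval (z + 1) = 0 → q.eval z = 0 := by
    intro z hz hqz
    have h1 := hev z
    rw [hqz] at h1
    have h2 : p.eval (z + 1) * q.eval z * z ^ M = 0 := by linear_combination h1
    rcases mul_eq_zero.1 h2 with h3 | h3
    · exact (mul_eq_zero.1 h3).resolve_left (hcop (z + 1) hqz)
    · exact absurd h3 (pow_ne_zero _ hz)
  have hno : ∀ w, q.eval w ≠ 0 := by
    intro w hw
    by_cases hc : ∀ n : ℕ, w + n ≠ 0
    · refine hq (infinite_roots (fun n : ℕ => w + n) (fun a b hab => ?_) fun n => ?_)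
      · have h1 : (a : ℂ) = b := add_left_cancel hab
        exact_mod_cast h1
      · induction n with
        | zero => simpa using hw
        | succ n ih =>
          have := hR (w + n) (hc n) ih
          rw [show w + ((n + 1 : ℕ) : ℂ) = w + n + 1 by push_cast; ring]
          exact this
    · push Not at hc
      obtain ⟨n, hn⟩ := hc
      have hwn : w = -(n : ℂ) := eq_neg_of_add_eq_zero_left hn
      refine hq (infinite_roots (fun n : ℕ => w - n) (fun a b hab => ?_) fun j => ?_)
      · have h1 : (a : ℂ) = b := sub_right_injective hab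
        exact_mod_cast h1
      · induction j with
        | zero => simpa using hw
        | succ j ih =>
          refine hL _ ?_ ?_
          · rw [hwn]
            have h1 : -(n : ℂ) - ((j + 1 : ℕ) : ℂ) = -((n + (j + 1) : ℕ) : ℂ) := by push_cast; ring
            rw [h1, neg_ne_zero]
            exact_mod_cast (by omega : n + (j + 1) ≠ 0)
          · rw [show w - ((j + 1 : ℕ) : ℂ) + 1 = w - j by push_cast; ring]
            exact ih
  have h1 := hev 0
  rw [zero_pow (by omega), mul_zero] at h1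
  exact mul_ne_zero (mul_ne_zero (hno 0) (hno _)) hW h1.symm

/-- the coefficients of the difference equations of the Hurwitz zeta functions -/
noncomputable def aa (e : ℕ) : KK := (algebraMap ℂ[X] KK X ^ e)⁻¹

lemma aX_ne : algebraMap ℂ[X] KK X ≠ 0 := by
  rw [Ne, FaithfulSMul.algebraMap_eq_zero_iff]
  exact X_ne_zero

/-- the hypothesis of `ideal_trivial` -/
theorem H_aa {κ : Type} [Fintype κ] (e : κ → ℕ) (he : Function.Injective e) (he1 : ∀ k, 1 ≤ e k) :
    ∀ (g : KK) (c : κ → KK), (∀ k, tau (c k) = c k) → tau g - g = ∑ k, c k * aa (e k) →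
      ∀ k, c k = 0 := by
  classical
  intro g c hc hg
  choose r hr using fun k => tau_const (c k) (hc k)
  by_contra hne
  push Not at hne
  have hne' : (Finset.univ.filter fun k => r k ≠ 0).Nonempty := by
    obtain ⟨k, hk⟩ := hne
    refine ⟨k, Finset.mem_filter.2 ⟨Finset.mem_univ _, fun h => hk ?_⟩⟩
    rw [hr, h, C_0, map_zero]
  obtain ⟨k0, hk0, hmax⟩ := Finset.exists_max_image _ e hne'
  rw [Finset.mem_filter] at hk0
  set M := e k0 with hM
  set W : ℂ[X] := ∑ k ∈ Finset.univ.filter (fun k => r k ≠ 0), C (r k) * X ^ (M - e k) with hW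
  have hW0 : W.eval 0 ≠ 0 := by
    rw [hW, eval_finsetSum, Finset.sum_eq_single k0]
    · rw [hM, Nat.sub_self, pow_zero, mul_one, eval_C]
      exact hk0.2
    · intro k hk hkk
      rw [eval_mul, eval_pow, eval_X, zero_pow, mul_zero]
      have h1 := hmax k hk
      have h2 : e k ≠ e k0 := fun h => hkk (he h)
      omega
    · intro h
      exact absurd (Finset.mem_filter.2 ⟨Finset.mem_univ k0, hk0.2⟩) h
  have hsum : ∑ k, c k * aa (e k) = algebraMap ℂ[X] KK W / algebraMap ℂ[X] KK X ^ M := by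
    rw [hW, map_sum, Finset.sum_div]
    rw [← Finset.sum_filter_add_sum_filter_not Finset.univ (fun k => r k ≠ 0)]
    have h1 : ∑ k ∈ Finset.univ.filter (fun k => ¬ r k ≠ 0), c k * aa (e k) = 0 := by
      refine Finset.sum_eq_zero fun k hk => ?_
      rw [Finset.mem_filter, not_not] at hk
      rw [hr, hk.2, C_0, map_zero, zero_mul]
    rw [h1, add_zero]
    refine Finset.sum_congr rfl fun k hk => ?_
    have h2 := hmax k hk
    rw [hr, map_mul, map_pow, aa, eq_div_iff (pow_ne_zero _ aX_ne), mul_assoc]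
    congr 1
    rw [inv_mul_eq_iff_eq_mul₀ (pow_ne_zero _ aX_ne), ← pow_add]
    congr 1
    omega
  obtain ⟨p, q, hpq, hmk⟩ := IsFractionRing.exists_reduced_fraction (A := ℂ[X]) g
  have hq0 : (q : ℂ[X]) ≠ 0 := nonZeroDivisors.ne_zero q.2
  have hq1 : algebraMap ℂ[X] KK q ≠ 0 := by
    rw [Ne, FaithfulSMul.algebraMap_eq_zero_iff]
    exact hq0
  have hq2 : algebraMap ℂ[X] KK (sh q) ≠ 0 := by
    rw [Ne, FaithfulSMul.algebraMap_eq_zero_iff]
    exact fun h => hq0 (sh_inj (by rw [h, map_zero]))
  rw [IsFractionRing.mk'_eq_div] at hmk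
  rw [← hmk, hsum, map_div₀, tau_algebraMap, tau_algebraMap] at hg
  refine no_solution (p := p) (q := q) (W := W) (M := M) (he1 k0) hq0 hpq hW0 ?_
  apply IsFractionRing.injective ℂ[X] KK
  have hX := pow_ne_zero M aX_ne
  rw [div_sub_div _ _ hq2 hq1, div_eq_div_iff (mul_ne_zero hq2 hq1) hX] at hg
  simp only [map_mul, map_sub, map_pow]
  linear_combination hg

end Pool.Agent.X142.AZ
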