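import Mathlib
import Pool.Agent.X142.AZ.Diff
import Pool.Agent.X142.AZ.Rat

/-!
# Independence of solutions of `F_k(t+1) = F_k(t) - t^(-e_k)`
-/

set_option autoImplicit false

namespace Pool.Agent.X142.AZ

open Filter MvPolynomial

/-- germs at infinity -/
abbrev GG : Type := Germ (atTop : Filter ℝ) ℂ

lemma tendsto_succ : Tendsto (fun t : ℝ => t + 1) atTop atTop := tendsto_atTop_add_const_right _ _ tendsto_id

/-- the shift of germs -/
noncomputable def sig : GG →+* GG where
  toFun f := f.compTendsto _ tendsto_succ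
  map_one' := rfl
  map_zero' := rfl
  map_mul' f g := Germ.inductionOn₂ f g fun _ _ => rfl
  map_add' f g := Germ.inductionOn₂ f g fun _ _ => rfl

/-- the germ of a polynomial -/
noncomputable def ph0 : Polynomial ℂ →+* GG :=
  (Germ.coeRingHom (atTop : Filter ℝ)).comp
    (RingHom.pi fun t : ℝ => Polynomial.evalRingHom (t : ℂ))

lemma ph0_apply (p : Polynomial ℂ) : ph0 p = ((fun t : ℝ => p.eval (t : ℂ) : ℝ → ℂ) : GG) := rfl

lemma eventually_ne {q : Polynomial ℂ} (hq : q ≠ 0) : ∀ᶠ t : ℝ in atTop, q.eval (t : ℂ) ≠ 0 := by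
  have hfin : {t : ℝ | q.eval (t : ℂ) = 0}.Finite := by
    by_contra hinf
    apply hq
    apply Polynomial.eq_zero_of_infinite_isRoot q
    refine (Set.Infinite.image (f := fun t : ℝ => (t : ℂ)) ?_ hinf).mono ?_
    · intro a _ b _ hab
      exact Complex.ofReal_injective hab
    · rintro _ ⟨n, hn, rfl⟩
      exact hn
  obtain ⟨N, hN⟩ := hfin.bddAbove
  filter_upwards [eventually_gt_atTop N] with t ht h
  exact absurd (hN h) (not_le.2 ht)

lemma ph0_isUnit (q : nonZeroDivisors (Polynomial ℂ)) : IsUnit (ph0 q) := by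
  have hq0 : (q : Polynomial ℂ) ≠ 0 := nonZeroDivisors.ne_zero q.2
  refine IsUnit.of_mul_eq_one ((fun t : ℝ => ((q : Polynomial ℂ).eval (t : ℂ))⁻¹ : ℝ → ℂ) : GG) ?_
  rw [ph0_apply, ← Germ.coe_mul]
  refine Germ.coe_eq.2 ?_
  filter_upwards [eventually_ne hq0] with t ht
  exact mul_inv_cancel₀ ht

/-- the germ of a rational function -/
noncomputable def phi : KK →+* GG := IsLocalization.lift (M := nonZeroDivisors (Polynomial ℂ)) ph0_isUnit

lemma phi_algebraMap (p : Polynomial ℂ) : phi (algebraMap _ KK p) = ph0 p :=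
  IsLocalization.lift_eq _ _

lemma phi_tau (r : KK) : phi (tau r) = sig (phi r) := by
  have h : phi.comp tau = sig.comp phi := by
    apply IsLocalization.ringHom_ext (nonZeroDivisors (Polynomial ℂ))
    apply RingHom.ext
    intro p
    simp only [RingHom.comp_apply]
    rw [tau_algebraMap, phi_algebraMap, phi_algebraMap, ph0_apply, ph0_apply]
    refine Germ.coe_eq.2 (Eventually.of_forall fun t => ?_)
    show Polynomial.eval (t : ℂ) (sh p) = Polynomial.eval ((t + 1 : ℝ) : ℂ) p
    rw [eval_sh]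
    push_cast
    rfl
  exact congrArg (fun f => f r) h

variable {κ : Type} [Fintype κ]

/-- evaluation at germs -/
noncomputable def evG (F : κ → ℝ → ℂ) : MvPolynomial κ KK →+* GG :=
  eval₂Hom phi fun k => (F k : GG)

lemma evG_Sh (F : κ → ℝ → ℂ) (e : κ → ℕ)
    (hF : ∀ k, ∀ᶠ t : ℝ in atTop, F k (t + 1) = F k t - ((t : ℂ) ^ e k)⁻¹) (P : MvPolynomial κ KK) :
    evG F (Sh tau (fun k => aa (e k)) P) = sig (evG F P) := by
  have h : (evG F).comp (Sh tau fun k => aa (e k)) = sig.comp (evG F) := by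
    apply MvPolynomial.ringHom_ext
    · intro r
      simp only [RingHom.comp_apply, Sh_C, evG, coe_eval₂Hom, eval₂_C]
      exact phi_tau r
    · intro k
      simp only [RingHom.comp_apply, Sh_X, evG, coe_eval₂Hom, eval₂_sub, eval₂_X, eval₂_C]
      have h1 : phi (aa (e k)) = ((fun t : ℝ => ((t : ℂ) ^ e k)⁻¹ : ℝ → ℂ) : GG) := by
        have h2 : phi (aa (e k)) * phi (algebraMap (Polynomial ℂ) KK (Polynomial.X ^ e k)) = 1 := by
          rw [← map_mul, aa, map_pow, inv_mul_cancel₀ (pow_ne_zero _ aX_ne), map_one]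
        have h3 : ((fun t : ℝ => ((t : ℂ) ^ e k)⁻¹ : ℝ → ℂ) : GG) *
            phi (algebraMap (Polynomial ℂ) KK (Polynomial.X ^ e k)) = 1 := by
          rw [phi_algebraMap, ph0_apply, ← Germ.coe_mul]
          refine Germ.coe_eq.2 ?_
          filter_upwards [eventually_gt_atTop 0] with t ht
          have h4 : (t : ℂ) ≠ 0 := by exact_mod_cast ht.ne'
          simp only [Pi.mul_apply, Polynomial.eval_pow, Polynomial.eval_X, Pi.one_apply]
          exact inv_mul_cancel₀ (pow_ne_zero _ h4)
        exact (IsUnit.of_mul_eq_one_right _ h2).mul_right_cancel (h2.trans h3.symm)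
      rw [h1, ← Germ.coe_sub]
      refine Germ.coe_eq.2 ?_
      filter_upwards [hF k] with t ht
      exact ht.symm
  exact congrArg (fun f => f P) h

/-- the passage from `ℂ[z][κ]` to `ℂ(z)[κ]` -/
noncomputable def Th : MvPolynomial (Option κ) ℂ →+* MvPolynomial κ KK :=
  (MvPolynomial.map (algebraMap (Polynomial ℂ) KK)).comp
    (optionEquivRight ℂ κ : MvPolynomial (Option κ) ℂ →+* MvPolynomial κ (Polynomial ℂ))

lemma Th_inj : Function.Injective (Th (κ := κ)) := by
  unfold Th
  rw [RingHom.coe_comp]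
  exact (map_injective _ (IsFractionRing.injective (Polynomial ℂ) KK)).comp
    (optionEquivRight ℂ κ).injective

lemma evG_Th (F : κ → ℝ → ℂ) (P : MvPolynomial (Option κ) ℂ) :
    evG F (Th P) = ((fun t : ℝ => eval (fun o : Option κ => o.elim (t : ℂ) fun k => F k t) P : ℝ → ℂ) : GG) := by
  have h : (evG F).comp Th = (Germ.coeRingHom (atTop : Filter ℝ)).comp
      (RingHom.pi fun t : ℝ => eval (fun o : Option κ => o.elim (t : ℂ) fun k => F k t)) := by
    apply MvPolynomial.ringHom_ext
    · intro r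
      simp only [RingHom.comp_apply, Th]
      rw [show (optionEquivRight ℂ κ : MvPolynomial (Option κ) ℂ →+* MvPolynomial κ (Polynomial ℂ)) (C r) =
        C (Polynomial.C r) from optionEquivRight_C ℂ κ r, map_C, evG, coe_eval₂Hom, eval₂_C, phi_algebraMap, ph0_apply]
      refine Germ.coe_eq.2 (Eventually.of_forall fun t => ?_)
      simp
    · intro o
      simp only [RingHom.comp_apply, Th]
      cases o with
      | none =>
        rw [show (optionEquivRight ℂ κ : MvPolynomial (Option κ) ℂ →+* MvPolynomial κ (Polynomial ℂ)) (X none) =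
          C Polynomial.X from optionEquivRight_X_none ℂ κ, map_C, evG, coe_eval₂Hom, eval₂_C, phi_algebraMap, ph0_apply]
        refine Germ.coe_eq.2 (Eventually.of_forall fun t => ?_)
        simp
      | some k =>
        rw [show (optionEquivRight ℂ κ : MvPolynomial (Option κ) ℂ →+* MvPolynomial κ (Polynomial ℂ)) (X (some k)) =
          X k from optionEquivRight_X_some ℂ κ k, map_X, evG, coe_eval₂Hom, eval₂_X]
        refine Germ.coe_eq.2 (Eventually.of_forall fun t => ?_)
        simp
  exact congrArg (fun f => f P) h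

/-- solutions of the difference equations are algebraically independent over `ℂ(z)` -/
theorem indep_diff (m : MonomialOrder κ) (F : κ → ℝ → ℂ) (e : κ → ℕ) (he : Function.Injective e)
    (he1 : ∀ k, 1 ≤ e k)
    (hF : ∀ k, ∀ᶠ t : ℝ in atTop, F k (t + 1) = F k t - ((t : ℂ) ^ e k)⁻¹)
    (P : MvPolynomial (Option κ) ℂ)
    (hP : ∀ᶠ t : ℝ in atTop, eval (fun o : Option κ => o.elim (t : ℂ) fun k => F k t) P = 0) :
    P = 0 := by
  have h0 : evG F (Th P) = 0 := by
    rw [evG_Th]
    refine Germ.coe_eq.2 ?_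
    filter_upwards [hP] with t ht
    exact ht
  have h1 := ideal_trivial tau (fun k => aa (e k)) m (H_aa e he he1) (RingHom.ker (evG F)) ?_ ?_ (Th P) h0
  · exact Th_inj (h1.trans (map_zero _).symm)
  · rw [RingHom.mem_ker, map_one]
    exact one_ne_zero
  · intro Q hQ
    rw [RingHom.mem_ker] at hQ ⊢
    rw [evG_Sh F e hF, hQ, map_zero]

end Pool.Agent.X142.AZ
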