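import Mathlib
import Pool.Agent.Y771.RP.Rel

/-!
# Algebraic independence of functions with independent exponential growth rates
-/

set_option autoImplicit false

namespace Pool.Agent.X142.AZ

open Filter Topology Polynomial

lemma poly_bound (p : ℝ[X]) : ∃ (A : ℝ) (E : ℕ), 0 ≤ A ∧ ∀ y : ℝ, 1 ≤ y → |eval y p| ≤ A * y ^ E := by
  refine ⟨∑ i ∈ Finset.range (p.natDegree + 1), |p.coeff i|, p.natDegree,
    Finset.sum_nonneg fun i _ => abs_nonneg _, fun y hy => ?_⟩
  rw [eval_eq_sum_range, Finset.sum_mul]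
  refine (Finset.abs_sum_le_sum_abs _ _).trans (Finset.sum_le_sum fun i hi => ?_)
  rw [abs_mul, abs_of_pos (by positivity : 0 < y ^ i)]
  exact mul_le_mul_of_nonneg_left (pow_le_pow_right₀ hy (by
    have := Finset.mem_range.1 hi
    omega)) (abs_nonneg _)

lemma poly_lower (p : ℝ[X]) (hp : p ≠ 0) : ∃ δ : ℝ, 0 < δ ∧ ∀ᶠ y : ℝ in atTop, δ ≤ |eval y p| := by
  by_cases hdeg : 0 < p.degree
  · exact ⟨1, one_pos, (abs_tendsto_atTop p hdeg).eventually_ge_atTop 1⟩
  · push Not at hdeg
    rw [degree_le_zero_iff] at hdeg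
    have h0 : p.coeff 0 ≠ 0 := by
      intro h0
      apply hp
      rw [hdeg, h0, C_0]
    refine ⟨|p.coeff 0|, abs_pos.2 h0, Eventually.of_forall fun y => ?_⟩
    conv_rhs => rw [hdeg]
    rw [eval_C]

lemma poly_decay (p : ℝ[X]) {ρ : ℝ} (h0 : 0 < ρ) (h1 : ρ < 1) :
    Tendsto (fun t : ℝ => eval t p * ρ ^ t) atTop (𝓝 0) := by
  obtain ⟨A, E, hA, hAE⟩ := poly_bound p
  have hl : 0 < -Real.log ρ := by
    have := Real.log_neg h0 h1
    linarith
  have h2 := (tendsto_rpow_mul_exp_neg_mul_atTop_nhds_zero E (-Real.log ρ) hl).const_mul A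
  rw [mul_zero] at h2
  refine squeeze_zero_norm' ?_ h2
  filter_upwards [eventually_ge_atTop 1] with t ht
  have h3 : ρ ^ t = Real.exp (-(-Real.log ρ) * t) := by
    rw [Real.rpow_def_of_pos h0]
    ring_nf
  rw [Real.norm_eq_abs, abs_mul, abs_of_pos (Real.rpow_pos_of_pos h0 t), h3, Real.rpow_natCast,
    ← mul_assoc]
  exact mul_le_mul_of_nonneg_right (hAE t ht) (Real.exp_pos _).le

/-- functions with multiplicatively independent exponential growth rates are algebraically
independent over the polynomials -/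
theorem indep_of_asymp {κ : Type} [Fintype κ] [DecidableEq κ] (u : κ → ℝ → ℝ) (b c : κ → ℝ)
    (hb : ∀ y, 0 < b y) (hmul : ∀ e : κ → ℤ, ∏ y, b y ^ e y = 1 → e = 0) (hc : ∀ y, c y ≠ 0)
    (hu : ∀ y, Tendsto (fun t => u y t / b y ^ t) atTop (𝓝 (c y))) (S : Set ℝ)
    (hS : ∀ᶠ t in atTop, t ∈ S) (P : MvPolynomial (Option κ) ℝ)
    (hP : ∀ t ∈ S, MvPolynomial.eval (fun o : Option κ => o.elim t fun y => u y t) P = 0) :
    P = 0 := by
  classical
  refine Pool.Agent.Y771.RP.mv_of_exp u S (fun d p hp => ?_) P hP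
  by_contra hne
  set B : (κ → Fin (d + 1)) → ℝ := fun e => ∏ y, b y ^ (e y : ℕ) with hB
  have hBpos : ∀ e, 0 < B e := fun e => Finset.prod_pos fun y _ => pow_pos (hb y) _
  have hBinj : ∀ e e', B e = B e' → e = e' := by
    intro e e' h
    have h1 := hmul (fun y => ((e y : ℕ) : ℤ) - ((e' y : ℕ) : ℤ)) (by
      have h2 : ∏ y, b y ^ (((e y : ℕ) : ℤ) - ((e' y : ℕ) : ℤ)) = B e / B e' := by
        rw [hB]
        simp only
        rw [← Finset.prod_div_distrib]
        refine Finset.prod_congr rfl fun y _ => ?_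
        rw [zpow_sub₀ (hb y).ne', zpow_natCast, zpow_natCast]
      rw [h2, h, div_self (hBpos e').ne'])
    funext y
    have h2 := congrFun h1 y
    simp only [Pi.zero_apply] at h2
    exact Fin.ext (by omega)
  set T : Finset (κ → Fin (d + 1)) := Finset.univ.filter fun e => p e ≠ 0 with hT
  have hTne : T.Nonempty := by
    by_contra h
    rw [Finset.not_nonempty_iff_eq_empty] at h
    apply hne
    funext e
    by_contra he
    have : e ∈ T := by rw [hT, Finset.mem_filter]; exact ⟨Finset.mem_univ _, he⟩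
    rw [h] at this
    exact absurd this (Finset.notMem_empty e)
  obtain ⟨e0, he0, hmax⟩ := T.exists_max_image B hTne
  have hp0 : p e0 ≠ 0 := (Finset.mem_filter.1 he0).2
  obtain ⟨δ, hδ, hlow⟩ := poly_lower (p e0) hp0
  -- the normalised monomials
  set V : (κ → Fin (d + 1)) → ℝ → ℝ := fun e t => ∏ y, (u y t / b y ^ t) ^ (e y : ℕ) with hV
  have hVlim : ∀ e, Tendsto (V e) atTop (𝓝 (∏ y, c y ^ (e y : ℕ))) := fun e =>
    tendsto_finsetProd _ fun y _ => (hu y).pow _
  have hmon : ∀ e, ∀ t : ℝ, ∏ y, u y t ^ (e y : ℕ) = B e ^ t * V e t := by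
    intro e t
    have h1 : B e ^ t = ∏ y, (b y ^ t) ^ (e y : ℕ) := by
      rw [hB]
      simp only
      rw [← Real.finsetProd_rpow _ _ (fun y _ => (pow_pos (hb y) _).le)]
      refine Finset.prod_congr rfl fun y _ => ?_
      rw [← Real.rpow_natCast, ← Real.rpow_natCast, ← Real.rpow_mul (hb y).le,
        ← Real.rpow_mul (hb y).le, mul_comm]
    rw [h1, hV]
    simp only
    rw [← Finset.prod_mul_distrib]
    refine Finset.prod_congr rfl fun y _ => ?_
    rw [div_pow]
    have h2 : (b y ^ t) ^ (e y : ℕ) ≠ 0 := (pow_pos (Real.rpow_pos_of_pos (hb y) t) _).ne'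
    field_simp
  -- the other terms are small
  have hsmall : Tendsto (fun t : ℝ => ∑ e ∈ Finset.univ.erase e0,
      (p e).eval t * (∏ y, u y t ^ (e y : ℕ)) / B e0 ^ t) atTop (𝓝 0) := by
    rw [← Finset.sum_const_zero (s := Finset.univ.erase e0) (M := ℝ)]
    refine tendsto_finsetSum _ fun e he => ?_
    by_cases hpe : p e = 0
    · rw [hpe]
      simp
    · have heT : e ∈ T := by rw [hT, Finset.mem_filter]; exact ⟨Finset.mem_univ _, hpe⟩
      have hlt : B e < B e0 := lt_of_le_of_ne (hmax e heT)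
        fun h => (Finset.ne_of_mem_erase he) (hBinj _ _ h)
      have h1 := (poly_decay (p e) (div_pos (hBpos e) (hBpos e0))
        ((div_lt_one (hBpos e0)).2 hlt)).mul (hVlim e)
      rw [zero_mul] at h1
      refine h1.congr fun t => ?_
      rw [hmon, Real.div_rpow (hBpos e).le (hBpos e0).le]
      ring
  have hmain : Tendsto (fun t : ℝ => (p e0).eval t * V e0 t) atTop (𝓝 0) := by
    have h1 := hsmall.neg
    rw [neg_zero] at h1
    refine h1.congr' ?_
    filter_upwards [hS] with t ht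
    have h2 := hp t ht
    rw [← Finset.add_sum_erase _ _ (Finset.mem_univ e0)] at h2
    have h3 : B e0 ^ t ≠ 0 := (Real.rpow_pos_of_pos (hBpos e0) t).ne'
    rw [← Finset.sum_div]
    have h4 : ∑ e ∈ Finset.univ.erase e0, (p e).eval t * ∏ y, u y t ^ (e y : ℕ) =
        -((p e0).eval t * (B e0 ^ t * V e0 t)) := by
      rw [← hmon]
      linarith
    rw [h4]
    field_simp
  have hcne : (∏ y, c y ^ (e0 y : ℕ)) ≠ 0 := Finset.prod_ne_zero_iff.2 fun y _ => pow_ne_zero _ (hc y)
  have h5 : Tendsto (fun t : ℝ => (p e0).eval t * V e0 t / V e0 t) atTop (𝓝 (0 / ∏ y, c y ^ (e0 y : ℕ))) :=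
    hmain.div (hVlim e0) hcne
  rw [zero_div] at h5
  have h6 : Tendsto (fun t : ℝ => |(p e0).eval t|) atTop (𝓝 0) := by
    have h7 := h5.abs
    rw [abs_zero] at h7
    refine h7.congr' ?_
    filter_upwards [(hVlim e0).eventually_ne hcne] with t ht
    rw [mul_div_assoc, div_self ht, mul_one]
  have h7 := h6.eventually (gt_mem_nhds hδ)
  obtain ⟨t, ht1, ht2⟩ := (h7.and hlow).exists
  linarith

end Pool.Agent.X142.AZ
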