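import Mathlib

/-!
# The Riemann zeta function at large real arguments
-/

set_option autoImplicit false

namespace Pool.Agent.X142.AZ

open Filter Topology

/-- the zeta function at real arguments -/
noncomputable def zr (x : ℝ) : ℝ := ∑' n : ℕ, 1 / ((n : ℝ) + 1) ^ x

lemma zeta_real {x : ℝ} (hx : 1 < x) : riemannZeta (x : ℂ) = (zr x : ℂ) := by
  rw [zeta_eq_tsum_one_div_nat_add_one_cpow (by simpa using hx), zr, Complex.ofReal_tsum]
  refine tsum_congr fun n => ?_
  rw [Complex.ofReal_div, Complex.ofReal_one, Complex.ofReal_cpow (by positivity)]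
  push_cast
  rfl

/-- the remainder -/
noncomputable def rr (x : ℝ) : ℝ := ∑' n : ℕ, 1 / ((n : ℝ) + 4) ^ x

lemma summable_shift (k : ℕ) {x : ℝ} (hx : 1 < x) :
    Summable fun n : ℕ => 1 / ((n : ℝ) + k) ^ x := by
  have h1 := (summable_nat_add_iff k).2 (Real.summable_one_div_nat_rpow.2 hx)
  refine h1.congr fun n => ?_
  push_cast
  rfl

lemma zr_eq {x : ℝ} (hx : 1 < x) : zr x = 1 + (1 / 2) ^ x + (1 / 3) ^ x + rr x := by
  have h1 : Summable fun n : ℕ => 1 / ((n : ℝ) + 1) ^ x := by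
    have := summable_shift 1 hx
    simpa using this
  unfold zr rr
  rw [← h1.sum_add_tsum_nat_add 3]
  congr 1
  · rw [Finset.sum_range_succ, Finset.sum_range_succ, Finset.sum_range_one]
    rw [Real.div_rpow one_pos.le (by norm_num), Real.div_rpow one_pos.le (by norm_num),
      Real.one_rpow]
    norm_num
  · refine tsum_congr fun n => ?_
    push_cast
    ring_nf

lemma rr_bound : ∃ C : ℝ, 0 ≤ C ∧ ∀ x : ℝ, 2 ≤ x → 0 ≤ rr x ∧ rr x ≤ C * (1 / 4) ^ x := by
  have hs : Summable fun n : ℕ => 16 * (1 / ((n : ℝ) + 4) ^ (2 : ℝ)) := by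
    have := (summable_shift 4 (by norm_num : (1 : ℝ) < 2)).mul_left 16
    simpa using this
  refine ⟨∑' n : ℕ, 16 * (1 / ((n : ℝ) + 4) ^ (2 : ℝ)), tsum_nonneg fun n => by positivity,
    fun x hx => ⟨tsum_nonneg fun n => by positivity, ?_⟩⟩
  have hx1 : Summable fun n : ℕ => 1 / ((n : ℝ) + 4) ^ x := by
    have := summable_shift 4 (by linarith : 1 < x)
    simpa using this
  unfold rr
  rw [← tsum_mul_right]
  refine hx1.tsum_le_tsum (fun n => ?_) (hs.mul_right _)
  have hn : (0 : ℝ) ≤ n := Nat.cast_nonneg n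
  have h4 : (0 : ℝ) < (n : ℝ) + 4 := by linarith
  have h5 : 1 / ((n : ℝ) + 4) ^ x = (1 / 4) ^ x * (4 / ((n : ℝ) + 4)) ^ x := by
    rw [Real.div_rpow one_pos.le (by norm_num), Real.div_rpow (by norm_num) h4.le, Real.one_rpow]
    have : (4 : ℝ) ^ x ≠ 0 := (Real.rpow_pos_of_pos (by norm_num) x).ne'
    field_simp
  have h6 : (4 / ((n : ℝ) + 4)) ^ x ≤ (4 / ((n : ℝ) + 4)) ^ (2 : ℝ) :=
    Real.rpow_le_rpow_of_exponent_ge (by positivity) (by rw [div_le_one h4]; linarith) hx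
  have h7 : (4 / ((n : ℝ) + 4)) ^ (2 : ℝ) = 16 * (1 / ((n : ℝ) + 4) ^ (2 : ℝ)) := by
    rw [Real.div_rpow (by norm_num) h4.le]
    norm_num
    ring
  rw [h5, mul_comm]
  rw [h7] at h6
  exact mul_le_mul_of_nonneg_right h6 (by positivity)

lemma decay {ρ : ℝ} (h0 : 0 < ρ) (h1 : ρ < 1) (C : ℝ) :
    Tendsto (fun x : ℝ => C * ρ ^ x) atTop (𝓝 0) := by
  have := (tendsto_rpow_atTop_of_base_lt_one ρ (by linarith) h1).const_mul C
  rwa [mul_zero] at this

/-- `ζ(x) - 1` -/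
noncomputable def u1 (x : ℝ) : ℝ := zr x - 1

/-- `(ζ(x) - 1)² - (ζ(2x) - 1)` -/
noncomputable def u2 (x : ℝ) : ℝ := (zr x - 1) ^ 2 - (zr (2 * x) - 1)

lemma tendsto_mul_rr {a : ℝ} (ha : 0 < a) (ha4 : a < 4) :
    Tendsto (fun x : ℝ => a ^ x * rr x) atTop (𝓝 0) := by
  obtain ⟨C, hC, hr⟩ := rr_bound
  refine squeeze_zero_norm' ?_ (decay (ρ := a / 4) (by positivity) (by linarith) C)
  filter_upwards [eventually_ge_atTop 2] with x hx
  have h1 : 0 < a ^ x := Real.rpow_pos_of_pos ha x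
  rw [Real.norm_eq_abs, abs_of_nonneg (mul_nonneg h1.le (hr x hx).1),
    Real.div_rpow ha.le (by norm_num)]
  have h2 := mul_le_mul_of_nonneg_left (hr x hx).2 h1.le
  refine h2.trans (le_of_eq ?_)
  rw [Real.div_rpow one_pos.le (by norm_num), Real.one_rpow]
  ring

lemma u1_lim : Tendsto (fun x : ℝ => u1 x / (1 / 2) ^ x) atTop (𝓝 1) := by
  have h1 := (decay (ρ := 2 / 3) (by norm_num) (by norm_num) 1).add
    (tendsto_mul_rr (a := 2) (by norm_num) (by norm_num))
  have h2 := h1.const_add 1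
  rw [add_zero, add_zero] at h2
  refine h2.congr' ?_
  filter_upwards [eventually_gt_atTop 1] with x hx
  unfold u1
  rw [zr_eq hx]
  have a2 : (0 : ℝ) < 2 ^ x := Real.rpow_pos_of_pos (by norm_num) x
  have a3 : (0 : ℝ) < 3 ^ x := Real.rpow_pos_of_pos (by norm_num) x
  rw [Real.div_rpow one_pos.le (by norm_num), Real.div_rpow one_pos.le (by norm_num),
    Real.div_rpow (by norm_num) (by norm_num), Real.one_rpow]
  field_simp
  ring

lemma u2_lim : Tendsto (fun x : ℝ => u2 x / (1 / 6) ^ x) atTop (𝓝 2) := by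
  obtain ⟨C, hC, hr⟩ := rr_bound
  have t2 := tendsto_mul_rr (a := 2) (by norm_num) (by norm_num)
  have t3 := tendsto_mul_rr (a := 3) (by norm_num) (by norm_num)
  have t6 : Tendsto (fun x : ℝ => 6 ^ x * rr (2 * x)) atTop (𝓝 0) := by
    refine squeeze_zero_norm' ?_ (decay (ρ := 6 / 16) (by norm_num) (by norm_num) C)
    filter_upwards [eventually_ge_atTop 2] with x hx
    have h1 : (0 : ℝ) < 6 ^ x := Real.rpow_pos_of_pos (by norm_num) x
    have hr2 := hr (2 * x) (by linarith)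
    rw [Real.norm_eq_abs, abs_of_nonneg (mul_nonneg h1.le hr2.1),
      Real.div_rpow (by norm_num) (by norm_num)]
    have h2 := mul_le_mul_of_nonneg_left hr2.2 h1.le
    refine h2.trans (le_of_eq ?_)
    rw [Real.rpow_mul (by norm_num)]
    norm_num
    rw [Real.div_rpow one_pos.le (by norm_num), Real.one_rpow]
    ring
  have h1 := ((((t3.add t2).const_mul 2).add (t2.mul t3)).sub t6).const_add 2
  simp only [add_zero, mul_zero, sub_zero] at h1
  refine h1.congr' ?_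
  filter_upwards [eventually_gt_atTop 1] with x hx
  unfold u2
  rw [zr_eq hx, zr_eq (by linarith : 1 < 2 * x)]
  have a2 : (0 : ℝ) < 2 ^ x := Real.rpow_pos_of_pos (by norm_num) x
  have a3 : (0 : ℝ) < 3 ^ x := Real.rpow_pos_of_pos (by norm_num) x
  have e1 : ((1 : ℝ) / 2) ^ (2 * x) = (1 / 2 ^ x) ^ 2 := by
    rw [mul_comm, Real.rpow_mul (by norm_num), Real.div_rpow one_pos.le (by norm_num), Real.one_rpow]
    norm_num
  have e2 : ((1 : ℝ) / 3) ^ (2 * x) = (1 / 3 ^ x) ^ 2 := by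
    rw [mul_comm, Real.rpow_mul (by norm_num), Real.div_rpow one_pos.le (by norm_num), Real.one_rpow]
    norm_num
  have e6 : (6 : ℝ) ^ x = 2 ^ x * 3 ^ x := by
    rw [← Real.mul_rpow (by norm_num) (by norm_num)]
    norm_num
  rw [e1, e2, Real.div_rpow one_pos.le (by norm_num : (0 : ℝ) ≤ 2),
    Real.div_rpow one_pos.le (by norm_num : (0 : ℝ) ≤ 3),
    Real.div_rpow one_pos.le (by norm_num : (0 : ℝ) ≤ 6), Real.one_rpow, e6]
  field_simp
  ring

end Pool.Agent.X142.AZ
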