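import Mathlib
import Pool.Agent.X142.AZ.Asym
import Pool.Agent.X142.AZ.Zeta

/-!
# Independence of `ζ(z)`, `ζ(2z)` and exponential functions
-/

set_option autoImplicit false

namespace Pool.Agent.X142.AZ

open Filter Topology MvPolynomial

/-- transfer of independence along an invertible substitution -/
theorem transfer {κ : Type} (Φ Ψ : MvPolynomial (Option κ) ℝ →ₐ[ℝ] MvPolynomial (Option κ) ℝ)
    (h : Ψ.comp Φ = AlgHom.id ℝ _) (u w : κ → ℝ → ℝ) (S : Set ℝ)
    (huw : ∀ t ∈ S, ∀ P, eval (fun o : Option κ => o.elim t fun y => u y t) (Φ P) =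
      eval (fun o : Option κ => o.elim t fun y => w y t) P)
    (hind : ∀ P : MvPolynomial (Option κ) ℝ,
      (∀ t ∈ S, eval (fun o : Option κ => o.elim t fun y => u y t) P = 0) → P = 0)
    (P : MvPolynomial (Option κ) ℝ)
    (hP : ∀ t ∈ S, eval (fun o : Option κ => o.elim t fun y => w y t) P = 0) : P = 0 := by
  have h1 := hind (Φ P) fun t ht => by rw [huw t ht, hP t ht]
  have h2 : Ψ (Φ P) = P := by
    have := congrArg (fun f => f P) h
    simpa using this
  rw [← h2, h1, map_zero]

lemma eval_aeval' {σ : Type} (x : σ → ℝ) (g : σ → MvPolynomial σ ℝ) (P : MvPolynomial σ ℝ) :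
    eval x (aeval g P) = eval (fun o => eval x (g o)) P := by
  have h := MvPolynomial.comp_aeval_apply (R := ℝ) g (MvPolynomial.aeval x) P
  rw [MvPolynomial.aeval_eq_eval] at h
  rw [h, MvPolynomial.aeval_eq_eval]

/-! ### `ζ(z)` and exponentials -/

/-- the substitution `ζ = 1 + u` -/
noncomputable def subA {s : ℕ} (ε : ℝ) : Option (Unit ⊕ Fin s) → MvPolynomial (Option (Unit ⊕ Fin s)) ℝ
  | none => X none
  | some (Sum.inl u) => X (some (Sum.inl u)) + C ε
  | some (Sum.inr k) => X (some (Sum.inr k))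

/-- real functions -/
noncomputable def wA {s : ℕ} (b : Fin s → ℝ) : Unit ⊕ Fin s → ℝ → ℝ
  | Sum.inl _ => zr
  | Sum.inr k => fun t => b k ^ t

/-- real functions with exponential asymptotics -/
noncomputable def uA {s : ℕ} (b : Fin s → ℝ) : Unit ⊕ Fin s → ℝ → ℝ
  | Sum.inl _ => u1
  | Sum.inr k => fun t => b k ^ t

/-- complex functions -/
noncomputable def fA {s : ℕ} (b : Fin s → ℝ) : Unit ⊕ Fin s → ℂ → ℂ
  | Sum.inl _ => riemannZeta
  | Sum.inr k => fun z => (b k : ℂ) ^ z

theorem indA {s : ℕ} (b : Fin s → ℝ) (hb : ∀ k, 0 < b k)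
    (hm : ∀ (a : ℤ) (e : Fin s → ℤ), (2 : ℝ) ^ a * ∏ k, b k ^ e k = 1 → a = 0 ∧ e = 0)
    (P : MvPolynomial (Option (Unit ⊕ Fin s)) ℝ)
    (hP : ∀ t ∈ Set.Ioi (1 : ℝ), eval (fun o : Option (Unit ⊕ Fin s) => o.elim t fun y => wA b y t) P = 0) :
    P = 0 := by
  classical
  refine transfer (aeval (subA 1)) (aeval (subA (-1))) ?_ (uA b) (wA b) (Set.Ioi 1) ?_ ?_ P hP
  · apply MvPolynomial.algHom_ext
    intro o
    rw [AlgHom.comp_apply, aeval_X, AlgHom.id_apply]
    rcases o with _ | (u | k)
    · simp [subA]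
    · simp [subA]
    · simp [subA]
  · intro t ht Q
    rw [eval_aeval']
    congr 2
    funext o
    rcases o with _ | (u | k)
    · simp [subA]
    · simp [subA, uA, wA, u1]
    · simp [subA, uA, wA]
  · intro Q hQ
    refine indep_of_asymp (uA b) (Sum.elim (fun _ => (1 : ℝ) / 2) b) (fun _ => 1) ?_ ?_ ?_ ?_
      (Set.Ioi 1) (eventually_gt_atTop 1) Q hQ
    · rintro (u | k)
      · simp
      · simpa using hb k
    · intro e he
      rw [Fintype.prod_sum_type] at he
      simp only [Sum.elim_inl, Sum.elim_inr, Finset.univ_unique, Finset.prod_singleton] at he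
      have h1 := hm (-(e (Sum.inl PUnit.unit))) (fun k => e (Sum.inr k)) (by
        rw [← he, zpow_neg, one_div, inv_zpow])
      funext y
      rcases y with u | k
      · have := h1.1
        simp only [Pi.zero_apply]
        have hu : u = PUnit.unit := rfl
        rw [hu]
        omega
      · exact congrFun h1.2 k
    · intro _
      exact one_ne_zero
    · rintro (u | k)
      · exact u1_lim
      · have h1 : Tendsto (fun t : ℝ => b k ^ t / b k ^ t) atTop (𝓝 1) := by
          refine tendsto_const_nhds.congr fun t => ?_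
          exact (div_self (Real.rpow_pos_of_pos (hb k) t).ne').symm
        exact h1

lemma isPreconnected_compl {s : Set ℂ} (hs : s.Countable) : IsPreconnected sᶜ :=
  (hs.isConnected_compl_of_one_lt_rank (by
    rw [Complex.rank_real_complex]
    exact Nat.one_lt_ofNat)).isPreconnected

lemma analytic_cpow {b : ℝ} (hb : 0 < b) (z : ℂ) : AnalyticAt ℂ (fun z => (b : ℂ) ^ z) z := by
  have h0 : (b : ℂ) ≠ 0 := by exact_mod_cast hb.ne'
  have h1 : (fun z : ℂ => (b : ℂ) ^ z) = fun z => Complex.exp (Complex.log b * z) := by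
    funext z
    rw [Complex.cpow_def_of_ne_zero h0]
  rw [h1]
  exact (analyticAt_const.mul analyticAt_id).cexp

lemma fA_analytic {s : ℕ} (b : Fin s → ℝ) (hb : ∀ k, 0 < b k) (y : Unit ⊕ Fin s) {z : ℂ} (hz : z ≠ 1) :
    AnalyticAt ℂ (fA b y) z := by
  rcases y with u | k
  · exact analyticOn_riemannZeta z hz
  · exact analytic_cpow (hb k) z

theorem locIndA {s : ℕ} (b : Fin s → ℝ) (hb : ∀ k, 0 < b k)
    (hm : ∀ (a : ℤ) (e : Fin s → ℤ), (2 : ℝ) ^ a * ∏ k, b k ^ e k = 1 → a = 0 ∧ e = 0) :
    ∀ z : ℂ, z ≠ 1 → Pool.Agent.Y124.LocInd (fA b) z := by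
  refine Pool.Agent.Y771.RP.locInd_of (fA b) {1}ᶜ (isPreconnected_compl (Set.countable_singleton 1))
    (fun y z hz => fA_analytic b hb y hz) ?_
  intro P hP
  refine Pool.Agent.Y771.RP.ind_of_real (fA b) (wA b) (Set.Ioi 1) ?_ (indA b hb hm) P ?_
  · rintro (u | k) t ht
    · exact zeta_real ht
    · exact (Complex.ofReal_cpow (hb k).le t).symm
  · intro t ht
    refine hP t ?_
    rw [Set.mem_compl_iff, Set.mem_singleton_iff]
    intro h
    have h1 : t = 1 := by exact_mod_cast h
    have h2 : (1 : ℝ) < t := ht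
    linarith

lemma two_three (a c : ℤ) (h : (2 : ℝ) ^ a * 3 ^ c = 1) : a = 0 ∧ c = 0 := by
  have hq : (2 : ℚ) ^ a * 3 ^ c = 1 := by
    have h1 : (((2 : ℚ) ^ a * 3 ^ c : ℚ) : ℝ) = ((1 : ℚ) : ℝ) := by
      push_cast
      exact h
    exact Rat.cast_injective h1
  have v22 : padicValRat 2 (2 : ℚ) = 1 := by
    have := padicValRat.self (p := 2) (by norm_num)
    exact_mod_cast this
  have v33 : padicValRat 3 (3 : ℚ) = 1 := by
    have := padicValRat.self (p := 3) (by norm_num)
    exact_mod_cast this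
  have v23 : padicValRat 2 (3 : ℚ) = 0 := by
    have h1 : padicValRat 2 ((3 : ℕ) : ℚ) = padicValNat 2 3 := padicValRat.of_nat
    rw [padicValNat.eq_zero_of_not_dvd (by norm_num)] at h1
    exact_mod_cast h1
  have v32 : padicValRat 3 (2 : ℚ) = 0 := by
    have h1 : padicValRat 3 ((2 : ℕ) : ℚ) = padicValNat 3 2 := padicValRat.of_nat
    rw [padicValNat.eq_zero_of_not_dvd (by norm_num)] at h1
    exact_mod_cast h1
  have p2 : Fact (Nat.Prime 2) := ⟨Nat.prime_two⟩
  have p3 : Fact (Nat.Prime 3) := ⟨Nat.prime_three⟩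
  constructor
  · have h2 := congrArg (padicValRat 2) hq
    rw [padicValRat.mul (zpow_ne_zero _ (by norm_num)) (zpow_ne_zero _ (by norm_num)),
      padicValRat.zpow, padicValRat.zpow, v22, v23, padicValRat.one] at h2
    omega
  · have h2 := congrArg (padicValRat 3) hq
    rw [padicValRat.mul (zpow_ne_zero _ (by norm_num)) (zpow_ne_zero _ (by norm_num)),
      padicValRat.zpow, padicValRat.zpow, v33, v32, padicValRat.one] at h2
    omega

/-! ### `ζ(z)` and `ζ(2z)` -/

/-- the substitution `ζ(z) = 1 + u`, `ζ(2z) = 1 + u² - v` -/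
noncomputable def subB : Option (Fin 2) → MvPolynomial (Option (Fin 2)) ℝ
  | none => X none
  | some 0 => X (some 0) + 1
  | some 1 => 1 + X (some 0) ^ 2 - X (some 1)

/-- the inverse substitution -/
noncomputable def subB' : Option (Fin 2) → MvPolynomial (Option (Fin 2)) ℝ
  | none => X none
  | some 0 => X (some 0) - 1
  | some 1 => (X (some 0) - 1) ^ 2 - (X (some 1) - 1)

/-- real functions -/
noncomputable def wB : Fin 2 → ℝ → ℝ
  | 0 => zr
  | 1 => fun t => zr (2 * t)

/-- real functions with exponential asymptotics -/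
noncomputable def uB : Fin 2 → ℝ → ℝ
  | 0 => u1
  | 1 => u2

/-- complex functions -/
noncomputable def fB : Fin 2 → ℂ → ℂ
  | 0 => riemannZeta
  | 1 => fun z => riemannZeta (2 * z)

theorem indB (P : MvPolynomial (Option (Fin 2)) ℝ)
    (hP : ∀ t ∈ Set.Ioi (1 : ℝ), eval (fun o : Option (Fin 2) => o.elim t fun y => wB y t) P = 0) :
    P = 0 := by
  classical
  refine transfer (aeval subB) (aeval subB') ?_ uB wB (Set.Ioi 1) ?_ ?_ P hP
  · apply MvPolynomial.algHom_ext
    intro o
    rw [AlgHom.comp_apply, aeval_X, AlgHom.id_apply]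
    match o with
    | none => simp [subB, subB']
    | some 0 => simp [subB, subB']
    | some 1 =>
      simp only [subB, subB', map_add, map_sub, map_pow, map_one, aeval_X]
      ring
  · intro t ht Q
    rw [eval_aeval']
    congr 2
    funext o
    match o with
    | none => simp [subB]
    | some 0 => simp [subB, uB, wB, u1]
    | some 1 =>
      simp only [subB, uB, wB, u1, u2, map_add, map_sub, map_pow, map_one, eval_X, Option.elim_some]
      ring
  · intro Q hQ
    refine indep_of_asymp uB ![1 / 2, 1 / 6] ![1, 2] ?_ ?_ ?_ ?_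
      (Set.Ioi 1) (eventually_gt_atTop 1) Q hQ
    · intro y
      fin_cases y <;> norm_num
    · intro e he
      rw [Fin.prod_univ_two] at he
      simp only [Matrix.cons_val_zero, Matrix.cons_val_one] at he
      have h1 := two_three (-(e 0 + e 1)) (-(e 1)) (by
        rw [← he, one_div, one_div, inv_zpow', inv_zpow', neg_add, zpow_add₀ (by norm_num),
          show (6 : ℝ) = 2 * 3 by norm_num, mul_zpow]
        ring)
      funext y
      fin_cases y
      · simp only [Pi.zero_apply]
        have := h1.1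
        have := h1.2
        show e 0 = 0
        omega
      · have := h1.2
        show e 1 = 0
        omega
    · intro y
      fin_cases y <;> norm_num
    · intro y
      fin_cases y
      · simpa using! u1_lim
      · simpa using! u2_lim

lemma fB_analytic (y : Fin 2) {z : ℂ} (hz : z ≠ 1) (hz' : 2 * z ≠ 1) : AnalyticAt ℂ (fB y) z := by
  fin_cases y
  · exact analyticOn_riemannZeta z hz
  · have h1 : AnalyticAt ℂ (fun z : ℂ => 2 * z) z := analyticAt_const.mul analyticAt_id
    exact (analyticOn_riemannZeta (2 * z) hz').comp_of_eq h1 rfl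

theorem locIndB : ∀ z : ℂ, z ≠ 1 → 2 * z ≠ 1 → Pool.Agent.Y124.LocInd fB z := by
  have hU : ∀ z : ℂ, z ∈ ({1, 1 / 2} : Set ℂ)ᶜ ↔ z ≠ 1 ∧ 2 * z ≠ 1 := by
    intro z
    rw [Set.mem_compl_iff, Set.mem_insert_iff, Set.mem_singleton_iff, not_or]
    refine and_congr_right fun _ => not_congr ?_
    constructor
    · rintro rfl
      norm_num
    · intro h
      linear_combination h / 2
  have h1 : ∀ z ∈ ({1, 1 / 2} : Set ℂ)ᶜ, Pool.Agent.Y124.LocInd fB z := by
    refine Pool.Agent.Y771.RP.locInd_of fB _ (isPreconnected_compl (Set.to_countable _))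
      (fun y z hz => fB_analytic y ((hU z).1 hz).1 ((hU z).1 hz).2) ?_
    intro P hP
    refine Pool.Agent.Y771.RP.ind_of_real fB wB (Set.Ioi 1) ?_ indB P ?_
    · intro y t ht
      have ht1 : (1 : ℝ) < t := ht
      fin_cases y
      · exact zeta_real ht1
      · show riemannZeta (2 * (t : ℂ)) = ((zr (2 * t) : ℝ) : ℂ)
        rw [← zeta_real (by linarith : 1 < 2 * t)]
        push_cast
        rfl
    · intro t ht
      refine hP t ((hU _).2 ?_)
      have h2 : (1 : ℝ) < t := ht
      constructor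
      · intro h
        have h1 : t = 1 := by exact_mod_cast h
        linarith
      · intro h
        have h1 : 2 * t = 1 := by exact_mod_cast h
        linarith
  intro z hz hz'
  exact h1 z ((hU z).2 ⟨hz, hz'⟩)

end Pool.Agent.X142.AZ
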