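import Mathlib
import Pool.Agent.X142.AZ.Germ
import Pool.Agent.X142.AZ.Ind

/-!
# Hurwitz zeta functions
-/

set_option autoImplicit false

namespace Pool.Agent.X142.AZ

open Filter Topology MvPolynomial

/-- `∑_{n ≥ 0} (z + n) ^ (-k)` -/
noncomputable def hz (k : ℕ) (z : ℂ) : ℂ := ∑' n : ℕ, ((z + n) ^ k)⁻¹

lemma hz_bound (k : ℕ) {z : ℂ} {N : ℕ} (hN : 1 < z.re + N) (n : ℕ) :
    ‖((z + ((n + N : ℕ) : ℂ)) ^ k)⁻¹‖ ≤ ((((n + 1 : ℕ) : ℝ)) ^ k)⁻¹ := by
  rw [norm_inv, norm_pow]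
  have h1 : ((n + 1 : ℕ) : ℝ) ≤ ‖z + ((n + N : ℕ) : ℂ)‖ := by
    refine le_trans ?_ (Complex.re_le_norm _)
    rw [Complex.add_re, Complex.natCast_re]
    push_cast
    linarith
  have h2 : (0 : ℝ) < ((n + 1 : ℕ) : ℝ) := by positivity
  exact inv_anti₀ (pow_pos h2 k) (pow_le_pow_left₀ h2.le h1 k)

lemma summable_shiftH {k : ℕ} (hk : 2 ≤ k) : Summable fun n : ℕ => ((((n + 1 : ℕ) : ℝ)) ^ k)⁻¹ :=
  (summable_nat_add_iff 1).2 (Real.summable_nat_pow_inv.2 (by omega))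

lemma summable_tail {k : ℕ} (hk : 2 ≤ k) {z : ℂ} {N : ℕ} (hN : 1 < z.re + N) :
    Summable fun n : ℕ => ((z + ((n + N : ℕ) : ℂ)) ^ k)⁻¹ :=
  Summable.of_norm_bounded (summable_shiftH hk) (hz_bound k hN)

lemma exists_N (z : ℂ) : ∃ N : ℕ, 1 < z.re + N := by
  obtain ⟨N, hN⟩ := exists_nat_gt (1 - z.re)
  exact ⟨N, by linarith⟩

lemma summable_hz {k : ℕ} (hk : 2 ≤ k) (z : ℂ) : Summable fun n : ℕ => ((z + (n : ℂ)) ^ k)⁻¹ := by
  obtain ⟨N, hN⟩ := exists_N z
  exact (summable_nat_add_iff N).1 (summable_tail hk hN)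

lemma hz_split {k : ℕ} (hk : 2 ≤ k) (N : ℕ) (z : ℂ) :
    hz k z = ∑ n ∈ Finset.range N, ((z + (n : ℂ)) ^ k)⁻¹ + ∑' n : ℕ, ((z + ((n + N : ℕ) : ℂ)) ^ k)⁻¹ :=
  ((summable_hz hk z).sum_add_tsum_nat_add N).symm

lemma hz_analytic {k : ℕ} (hk : 2 ≤ k) {z : ℂ} (hz0 : ∀ n : ℕ, z ≠ -n) : AnalyticAt ℂ (hz k) z := by
  obtain ⟨N, hN⟩ := exists_N z
  have hfun : hz k = fun z => ∑ n ∈ Finset.range N, ((z + (n : ℂ)) ^ k)⁻¹ +
      ∑' n : ℕ, ((z + ((n + N : ℕ) : ℂ)) ^ k)⁻¹ := funext (hz_split hk N)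
  rw [hfun]
  refine AnalyticAt.add ?_ ?_
  · refine Finset.analyticAt_fun_sum _ fun n _ => ?_
    have h1 : z + (n : ℂ) ≠ 0 := fun h => hz0 n (eq_neg_of_add_eq_zero_left h)
    exact ((analyticAt_id.add analyticAt_const).pow k).inv (pow_ne_zero _ h1)
  · have hopen : IsOpen {w : ℂ | 1 < w.re + N} :=
      isOpen_lt continuous_const (Complex.continuous_re.add continuous_const)
    have h1 : DifferentiableOn ℂ (fun w : ℂ => ∑' n : ℕ, ((w + ((n + N : ℕ) : ℂ)) ^ k)⁻¹)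
        {w : ℂ | 1 < w.re + N} := by
      refine Complex.differentiableOn_tsum_of_summable_norm (summable_shiftH hk) ?_ hopen ?_
      · intro n w hw
        have h2 : w + ((n + N : ℕ) : ℂ) ≠ 0 := by
          intro h
          have h3 := congrArg Complex.re h
          rw [Complex.add_re, Complex.natCast_re, Complex.zero_re] at h3
          have h4 : 1 < w.re + N := hw
          push_cast at h3
          have h5 : (0 : ℝ) ≤ n := Nat.cast_nonneg n
          linarith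
        have h6 : DifferentiableAt ℂ (fun w : ℂ => w + ((n + N : ℕ) : ℂ)) w :=
          differentiableAt_id.add (differentiableAt_const _)
        exact ((h6.pow k).inv (pow_ne_zero _ h2)).differentiableWithinAt
      · intro n w hw
        exact hz_bound k hw n
    exact h1.analyticAt (hopen.mem_nhds hN)

lemma hz_succ {k : ℕ} (hk : 2 ≤ k) (z : ℂ) : hz k (z + 1) = hz k z - (z ^ k)⁻¹ := by
  have h1 := hz_split hk 1 z
  rw [Finset.sum_range_one, Nat.cast_zero, add_zero] at h1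
  rw [h1, add_sub_cancel_left]
  unfold hz
  refine tsum_congr fun n => ?_
  push_cast
  congr 2
  ring

/-- the domain -/
def Om : Set ℂ := (Set.range fun n : ℕ => -(n : ℂ))ᶜ

lemma mem_Om {z : ℂ} : z ∈ Om ↔ ∀ n : ℕ, z ≠ -n := by
  unfold Om
  rw [Set.mem_compl_iff, Set.mem_range, not_exists]
  exact forall_congr' fun n => ne_comm

lemma Om_pc : IsPreconnected Om := isPreconnected_compl (Set.countable_range _)

/-- Hurwitz zeta functions of distinct orders are algebraically independent over `ℂ(z)` -/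
theorem locIndH {κ : Type} [Fintype κ] (m : MonomialOrder κ) (e : κ → ℕ)
    (he : Function.Injective e) (he2 : ∀ k, 2 ≤ e k) {z : ℂ} (hz0 : ∀ n : ℕ, z ≠ -n) :
    Pool.Agent.Y124.LocInd (fun k => hz (e k)) z := by
  refine Pool.Agent.Y771.RP.locInd_of (fun k => hz (e k)) Om Om_pc
    (fun y t ht => hz_analytic (he2 y) (mem_Om.1 ht)) ?_ z (mem_Om.2 hz0)
  intro P hP
  refine indep_diff m (fun k t => hz (e k) (t : ℂ)) e he (fun k => (he2 k).trans' (by norm_num)) ?_ P ?_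
  · intro k
    refine Eventually.of_forall fun t => ?_
    push_cast
    exact hz_succ (he2 k) _
  · filter_upwards [eventually_gt_atTop 0] with t ht
    refine hP t (mem_Om.2 fun n h => ?_)
    have h1 : t = -(n : ℝ) := by exact_mod_cast h
    have h2 : (0 : ℝ) ≤ n := Nat.cast_nonneg n
    linarith

end Pool.Agent.X142.AZ
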