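import Mathlib
import Pool.Agent.Y771.RP.Rel

/-!
# Explicit relations at rational arguments
-/

set_option autoImplicit false

namespace Pool.Agent.X142.AZ

open Filter Topology MvPolynomial NumberField

/-- For all but `C T^ε` rational arguments there is no small integral combination of given monomials
with given complex coefficients. -/
theorem few {κ : Type} [Fintype κ] (v : κ → ℂ → ℂ) (L : Set ℂ) (hL : IsCompact L)
    (han : ∀ y, ∀ t ∈ L, AnalyticAt ℂ (v y) t) (hind : ∀ t ∈ L, Pool.Agent.Y124.LocInd v t)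
    (r D : ℕ) (m : Fin (r + 1) → κ → ℕ) (hm : Function.Injective m) (hmD : ∀ i y, m i y ≤ D)
    (A c ε : ℝ) (hε : 0 < ε) :
    ∃ B C T₀ : ℝ, 2 ≤ T₀ ∧ 0 ≤ C ∧ ∀ T : ℝ, T₀ ≤ T → ∀ ξ : Fin (r + 1) → ℂ,
      (∀ i, T ^ (-c) ≤ ‖ξ i‖) → ∀ S : Finset ℚ,
      (∀ x ∈ S, (x : ℂ) ∈ L ∧ |(x.num : ℝ)| ≤ T ∧ (x.den : ℝ) ≤ T ∧
        ∃ q : Fin (r + 1) → ℤ, q ≠ 0 ∧ (∀ i, |(q i : ℝ)| ≤ T ^ A) ∧
          ‖∑ i, ξ i * (q i : ℂ) * ∏ y, v y x ^ m i y‖ ≤ T ^ (-B)) →
      (S.card : ℝ) ≤ C * T ^ ε := by
  classical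
  obtain ⟨B, C, T₀, H⟩ := Pool.Agent.Y771.RP.main' 1 1 (r + 1) D v L hL han hind A ε hε
  refine ⟨B + c, |C|, max T₀ 2, le_max_right _ _, abs_nonneg _, ?_⟩
  intro T hT ξ hξ S hS
  have hT2 : 2 ≤ T := (le_max_right _ _).trans hT
  have hT0 : 0 < T := by linarith
  obtain ⟨hfin, hcard⟩ := H ℚ (by rw [Module.finrank_self]) (algebraMap ℚ ℂ) ξ T
    ((le_max_left _ _).trans hT)
  rw [Nat.sub_self, pow_zero, mul_one] at hcard
  set em : (κ → ℕ) → (Fin 1 × κ →₀ ℕ) := fun m => Finsupp.equivFunOnFinite.symm fun x => m x.2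
    with hem
  have hem_inj : Function.Injective em := by
    intro m m' h
    funext y
    have := DFunLike.congr_fun h (0, y)
    simpa [hem] using this
  have hmem : ∀ x ∈ S, (fun _ => x : Fin 1 → ℚ) ∈
      Pool.Agent.Y771.RP.Exc 1 D ℚ (algebraMap ℚ ℂ) ξ (fun _ => v) (fun _ => L) A B T := by
    intro x hx
    obtain ⟨hxL, hxn, hxd, q, hq0, hqA, hqs⟩ := hS x hx
    refine ⟨fun _ => ⟨by simpa using hxL, (x.num : 𝓞 ℚ), (x.den : 𝓞 ℚ), ?_, ?_, ?_⟩, ?_⟩
    · exact_mod_cast x.den_nz
    · intro φ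
      constructor
      · simpa using hxn
      · simpa using hxd
    · simp only [map_intCast, map_natCast]
      exact (Rat.num_div_den x).symm
    · set P : MvPolynomial (Fin 1 × κ) ℂ := ∑ i, monomial (em (m i)) (ξ i * (q i : ℂ)) with hP
      have hcoef : ∀ s, P.coeff s = ∑ i, if em (m i) = s then ξ i * (q i : ℂ) else 0 := by
        intro s
        rw [hP, coeff_sum]
        simp only [coeff_monomial]
      obtain ⟨i0, hi0⟩ : ∃ i, q i ≠ 0 := by
        by_contra h
        push Not at h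
        exact hq0 (funext h)
      have hc0 : P.coeff (em (m i0)) = ξ i0 * (q i0 : ℂ) := by
        rw [hcoef, Finset.sum_eq_single i0]
        · simp
        · intro i _ hi
          rw [if_neg]
          intro h
          exact hi (hm (hem_inj h))
        · intro h
          exact absurd (Finset.mem_univ _) h
      have hTc : 0 < T ^ (-c) := Real.rpow_pos_of_pos hT0 _
      have hq1 : (1 : ℝ) ≤ ‖(q i0 : ℂ)‖ := by
        rw [Complex.norm_intCast]
        have : (1 : ℤ) ≤ |q i0| := Int.one_le_abs hi0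
        exact_mod_cast this
      have hlow : T ^ (-c) ≤ ‖ξ i0 * (q i0 : ℂ)‖ := by
        rw [norm_mul]
        have := hξ i0
        nlinarith
      refine ⟨P, ?_, ?_, em (m i0), ?_, ?_⟩
      · intro x
        rw [degreeOf_le_iff]
        intro s hs
        rw [mem_support_iff, hcoef] at hs
        obtain ⟨i, _, hi⟩ := Finset.exists_ne_zero_of_sum_ne_zero hs
        have h1 : em (m i) = s := by
          by_contra h
          rw [if_neg h] at hi
          exact hi rfl
        rw [← h1]
        exact hmD i x.2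
      · intro s
        refine ⟨fun i => if em (m i) = s then (q i : 𝓞 ℚ) else 0, ?_, ?_⟩
        · intro i φ
          by_cases h : em (m i) = s
          · simp only [if_pos h]
            have h1 : φ (((q i : 𝓞 ℚ)) : ℚ) = (q i : ℂ) := by
              rw [show (((q i : 𝓞 ℚ)) : ℚ) = ((q i : ℤ) : ℚ) by simp, map_intCast]
            rw [h1, Complex.norm_intCast]
            exact hqA i
          · simp only [if_neg h]
            have h1 : φ (((0 : 𝓞 ℚ)) : ℚ) = 0 := by simp
            rw [h1, norm_zero]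
            exact (Real.rpow_pos_of_pos hT0 A).le
        · rw [hcoef]
          refine Finset.sum_congr rfl fun i _ => ?_
          by_cases h : em (m i) = s
          · simp only [if_pos h]
            have h1 : algebraMap ℚ ℂ (((q i : 𝓞 ℚ)) : ℚ) = (q i : ℂ) := by
              rw [show (((q i : 𝓞 ℚ)) : ℚ) = ((q i : ℤ) : ℚ) by simp, map_intCast]
            rw [h1]
          · simp only [if_neg h]
            have h1 : algebraMap ℚ ℂ (((0 : 𝓞 ℚ)) : ℚ) = 0 := by simp
            rw [h1, mul_zero]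
      · rw [hc0]
        intro h
        rw [h, norm_zero] at hlow
        linarith
      · rw [hc0]
        have h1 : MvPolynomial.aeval (fun y : Fin 1 × κ => v y.2 (algebraMap ℚ ℂ x)) P =
            ∑ i, ξ i * (q i : ℂ) * ∏ y, v y x ^ m i y := by
          rw [hP, map_sum]
          refine Finset.sum_congr rfl fun i _ => ?_
          rw [aeval_monomial, Finsupp.prod_fintype _ _ (fun _ => pow_zero _)]
          rw [Fintype.prod_prod_type]
          simp [hem]
        rw [h1]
        refine hqs.trans ?_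
        rw [neg_add, Real.rpow_add hT0]
        exact mul_le_mul_of_nonneg_left hlow (Real.rpow_pos_of_pos hT0 _).le
  have h1 : (S.image fun x => (fun _ => x : Fin 1 → ℚ)).card = S.card :=
    Finset.card_image_of_injective _ fun x y h => congrFun h 0
  have h2 : ((S.image fun x => (fun _ => x : Fin 1 → ℚ)) : Set (Fin 1 → ℚ)) ⊆
      Pool.Agent.Y771.RP.Exc 1 D ℚ (algebraMap ℚ ℂ) ξ (fun _ => v) (fun _ => L) A B T := by
    intro t ht
    obtain ⟨x, hx, rfl⟩ := Finset.mem_image.1 (Finset.mem_coe.1 ht)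
    exact hmem x hx
  have h3 := Set.ncard_le_ncard h2 hfin
  rw [Set.ncard_coe_finset, h1] at h3
  have h4 : (S.card : ℝ) ≤ _ := (Nat.cast_le.2 h3).trans hcard
  exact h4.trans (mul_le_mul_of_nonneg_right (le_abs_self C) (Real.rpow_pos_of_pos hT0 _).le)

end Pool.Agent.X142.AZ

namespace Pool.Agent.X142.AZ

open MvPolynomial

lemma locInd_equiv {κ κ' : Type} (e : κ' ≃ κ) (f : κ → ℂ → ℂ) {z : ℂ}
    (h : Pool.Agent.Y124.LocInd f z) : Pool.Agent.Y124.LocInd (fun y => f (e y)) z := by
  intro P hP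
  have h1 := h (rename (Option.map e) P) (hP.mono fun t ht => by
    rw [eval_rename]
    rw [← ht]
    congr 2
    funext o
    cases o <;> rfl)
  exact (rename_injective _ (Option.map_injective e.injective)) (h1.trans (map_zero _).symm)

end Pool.Agent.X142.AZ
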