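import Mathlib
import Pool.Agent.X142.AZ.Few
import Pool.Agent.X142.DN.Int

/-!
# Polynomial relations at rational arguments
-/

set_option autoImplicit false

namespace Pool.Agent.X142.AZ

open Filter Topology MvPolynomial NumberField

/-- For all but `C T^ε` rational arguments there is no small integral polynomial relation between the
scaled values `v_y(x) / ξ_y`. -/
theorem fewMv {κ : Type} [Fintype κ] (v : κ → ℂ → ℂ) (L : Set ℂ) (hL : IsCompact L)
    (han : ∀ y, ∀ t ∈ L, AnalyticAt ℂ (v y) t) (hind : ∀ t ∈ L, Pool.Agent.Y124.LocInd v t)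
    (m : ℕ) (A c ε : ℝ) (hε : 0 < ε) :
    ∃ B C T₀ : ℝ, 2 ≤ T₀ ∧ ∀ T : ℝ, T₀ ≤ T → ∀ ξ : κ → ℂ, (∀ y, ξ y ≠ 0) → (∀ y, ‖ξ y‖ ≤ T ^ c) →
      (({x : ℚ | (x : ℂ) ∈ L ∧ |(x.num : ℝ)| ≤ T ∧ (x.den : ℝ) ≤ T ∧
        ∃ Q : MvPolynomial κ ℤ, Q ≠ 0 ∧ (∀ y, Q.degreeOf y ≤ m) ∧ (∀ s, |((Q.coeff s : ℤ) : ℝ)| ≤ T ^ A) ∧
          ‖MvPolynomial.aeval (fun y => v y x / ξ y) Q‖ ≤ T ^ (-B)}.ncard : ℕ) : ℝ) ≤ C * T ^ ε := by
  classical
  obtain ⟨r, hr⟩ : ∃ r, Fintype.card (κ → Fin (m + 1)) = r + 1 :=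
    Nat.exists_eq_succ_of_ne_zero Fintype.card_ne_zero
  let E : Fin (r + 1) ≃ (κ → Fin (m + 1)) := (Fintype.equivFinOfCardEq hr).symm
  obtain ⟨B, C, T₀, hT₀, hC, H⟩ := few v L hL han hind r m (fun i y => (E i y : ℕ)) (by
      intro i j h
      apply E.injective
      funext y
      exact Fin.ext (congrFun h y))
    (fun i y => Nat.lt_succ_iff.1 (E i y).2) A (|c| * m * Fintype.card κ) ε hε
  refine ⟨B, C, T₀, hT₀, fun T hT ξ hξ0 hξ => ?_⟩
  have hT2 : 2 ≤ T := hT₀.trans hT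
  have hT0 : 0 < T := by linarith
  refine Pool.Agent.X142.DN.ncard_le (by positivity) fun S hS => ?_
  have h2 : 1 ≤ T ^ |c| := Real.one_le_rpow (by linarith) (abs_nonneg c)
  have h1 : ∀ y, ‖ξ y‖ ≤ T ^ |c| := fun y =>
    (hξ y).trans (Real.rpow_le_rpow_of_exponent_le (by linarith) (le_abs_self c))
  refine H T hT (fun i => ∏ y, (ξ y ^ (E i y : ℕ))⁻¹) ?_ S fun x hx => ?_
  · intro i
    rw [norm_prod, Real.rpow_neg hT0.le]
    have h3 : ∀ y, (T ^ (|c| * m))⁻¹ ≤ ‖(ξ y ^ (E i y : ℕ))⁻¹‖ := by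
      intro y
      rw [norm_inv, norm_pow]
      apply inv_anti₀ (pow_pos (norm_pos_iff.2 (hξ0 y)) _)
      calc ‖ξ y‖ ^ (E i y : ℕ) ≤ (T ^ |c|) ^ (E i y : ℕ) := pow_le_pow_left₀ (norm_nonneg _) (h1 y) _
        _ ≤ (T ^ |c|) ^ m := pow_le_pow_right₀ h2 (Nat.lt_succ_iff.1 (E i y).2)
        _ = T ^ (|c| * m) := by rw [← Real.rpow_natCast, ← Real.rpow_mul hT0.le]
    calc (T ^ (|c| * m * Fintype.card κ))⁻¹ = ∏ _y : κ, (T ^ (|c| * m))⁻¹ := by
          rw [Finset.prod_const, Finset.card_univ, inv_pow, Real.rpow_mul hT0.le, Real.rpow_natCast]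
      _ ≤ ∏ y, ‖(ξ y ^ (E i y : ℕ))⁻¹‖ := Finset.prod_le_prod (fun _ _ => by positivity) fun y _ => h3 y
  · obtain ⟨hxL, hxn, hxd, Q, hQ0, hQm, hQA, hQs⟩ := hS x hx
    set em : Fin (r + 1) → (κ →₀ ℕ) := fun i => Finsupp.equivFunOnFinite.symm fun y => (E i y : ℕ) with hem
    have hem_inj : Function.Injective em := by
      intro i j h
      apply E.injective
      funext y
      have := DFunLike.congr_fun h y
      exact Fin.ext (by simpa [hem] using this)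
    have hsurj : ∀ s ∈ Q.support, ∃ i, em i = s := by
      intro s hs
      refine ⟨E.symm fun y => ⟨s y, Nat.lt_succ_iff.2 ?_⟩, ?_⟩
      · exact (degreeOf_le_iff.1 (hQm y)) s hs
      · ext y
        simp [hem]
    refine ⟨hxL, hxn, hxd, fun i => Q.coeff (em i), ?_, fun i => hQA _, ?_⟩
    · intro h
      apply hQ0
      ext s
      by_cases hs : s ∈ Q.support
      · obtain ⟨i, rfl⟩ := hsurj s hs
        simpa using congrFun h i
      · rw [notMem_support_iff.1 hs, coeff_zero]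
    · refine le_trans (le_of_eq ?_) hQs
      congr 1
      rw [aeval_def, eval₂_eq']
      have h4 : ∑ s ∈ Q.support, algebraMap ℤ ℂ (Q.coeff s) * ∏ y, (v y x / ξ y) ^ s y =
          ∑ s ∈ Finset.univ.image em, algebraMap ℤ ℂ (Q.coeff s) * ∏ y, (v y x / ξ y) ^ s y := by
        refine Finset.sum_subset (fun s hs => ?_) fun s _ hs => ?_
        · obtain ⟨i, rfl⟩ := hsurj s hs
          exact Finset.mem_image_of_mem _ (Finset.mem_univ i)
        · rw [notMem_support_iff.1 hs, map_zero, zero_mul]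
      rw [h4, Finset.sum_image fun i _ j _ h => hem_inj h]
      refine Finset.sum_congr rfl fun i _ => ?_
      have h5 : ∏ y, (v y x / ξ y) ^ em i y = (∏ y, (ξ y ^ (E i y : ℕ))⁻¹) * ∏ y, v y x ^ (E i y : ℕ) := by
        rw [← Finset.prod_mul_distrib]
        refine Finset.prod_congr rfl fun y _ => ?_
        have : em i y = (E i y : ℕ) := by simp [hem]
        rw [this, div_pow, div_eq_mul_inv, mul_comm]
      rw [h5, eq_intCast]
      ring

end Pool.Agent.X142.AZ
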