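import Mathlib
import Pool.Agent.X142.AZ.Rat

/-!
# The difference equation `g(z+1) - g(z) = ∑ c_k (z + α_k)^(-e_k)` in rational functions
-/

set_option autoImplicit false

namespace Pool.Agent.X142.AZ

open Polynomial

/-- the residual argument at a coset `β + ℤ` -/
theorem no_solution' {p q W D : ℂ[X]} {M : ℕ} (β : ℂ) (hM : 1 ≤ M) (hq : q ≠ 0) (hpq : IsRelPrime p q)
    (hW : W.eval β ≠ 0) (hD : ∀ m : ℤ, D.eval (β + m) ≠ 0)
    (h : (sh p * q - p * sh q) * ((X - C β) ^ M * D) = q * sh q * W) : False := by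
  have hev : ∀ z : ℂ, (p.eval (z + 1) * q.eval z - p.eval z * q.eval (z + 1)) *
      ((z - β) ^ M * D.eval z) = q.eval z * q.eval (z + 1) * W.eval z := by
    intro z
    have := congrArg (eval z) h
    simp only [eval_mul, eval_sub, eval_pow, eval_X, eval_C, eval_sh] at this
    exact this
  have hcop : ∀ z, q.eval z = 0 → p.eval z ≠ 0 := by
    intro z hqz hpz
    have h1 : X - C z ∣ p := dvd_iff_isRoot.2 hpz
    have h2 : X - C z ∣ q := dvd_iff_isRoot.2 hqz
    exact not_isUnit_X_sub_C z (hpq h1 h2)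
  have hR : ∀ m : ℤ, m ≠ 0 → q.eval (β + m) = 0 → q.eval (β + ((m + 1 : ℤ) : ℂ)) = 0 := by
    intro m hm hqz
    have h1 := hev (β + m)
    rw [hqz] at h1
    have h2 : p.eval (β + m) * q.eval (β + m + 1) * ((β + m - β) ^ M * D.eval (β + m)) = 0 := by
      linear_combination -h1
    have h4 : (β + m - β) ^ M * D.eval (β + m) ≠ 0 := by
      refine mul_ne_zero (pow_ne_zero _ ?_) (hD m)
      rw [add_sub_cancel_left]
      exact_mod_cast hm
    rw [show β + ((m + 1 : ℤ) : ℂ) = β + m + 1 by push_cast; ring]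
    rcases mul_eq_zero.1 h2 with h3 | h3
    · exact (mul_eq_zero.1 h3).resolve_left (hcop _ hqz)
    · exact absurd h3 h4
  have hL : ∀ m : ℤ, m ≠ 0 → q.eval (β + ((m + 1 : ℤ) : ℂ)) = 0 → q.eval (β + m) = 0 := by
    intro m hm hqz
    rw [show β + ((m + 1 : ℤ) : ℂ) = β + m + 1 by push_cast; ring] at hqz
    have h1 := hev (β + m)
    rw [hqz] at h1
    have h2 : p.eval (β + m + 1) * q.eval (β + m) * ((β + m - β) ^ M * D.eval (β + m)) = 0 := by
      linear_combination h1
    have h4 : (β + m - β) ^ M * D.eval (β + m) ≠ 0 := by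
      refine mul_ne_zero (pow_ne_zero _ ?_) (hD m)
      rw [add_sub_cancel_left]
      exact_mod_cast hm
    rcases mul_eq_zero.1 h2 with h3 | h3
    · exact (mul_eq_zero.1 h3).resolve_left (hcop _ hqz)
    · exact absurd h3 h4
  have hno : ∀ m : ℤ, q.eval (β + m) ≠ 0 := by
    intro m hm
    rcases lt_or_ge 0 m with hpos | hneg
    · refine hq (infinite_roots (fun n : ℕ => β + ((m + n : ℤ) : ℂ)) (fun a b hab => ?_) fun n => ?_)
      · have h1 : ((m + a : ℤ) : ℂ) = ((m + b : ℤ) : ℂ) := add_left_cancel hab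
        have h2 : (m + a : ℤ) = m + b := by exact_mod_cast h1
        omega
      · induction n with
        | zero => simpa using hm
        | succ n ih =>
          have := hR (m + n) (by omega) ih
          rw [show (m + ((n + 1 : ℕ) : ℤ) : ℤ) = m + n + 1 by push_cast; ring]
          exact this
    · refine hq (infinite_roots (fun n : ℕ => β + ((m - n : ℤ) : ℂ)) (fun a b hab => ?_) fun j => ?_)
      · have h1 : ((m - a : ℤ) : ℂ) = ((m - b : ℤ) : ℂ) := add_left_cancel hab
        have h2 : (m - a : ℤ) = m - b := by exact_mod_cast h1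
        omega
      · induction j with
        | zero => simpa using hm
        | succ j ih =>
          refine hL _ (by push_cast; omega) ?_
          rw [show (m - ((j + 1 : ℕ) : ℤ) + 1 : ℤ) = m - j by push_cast; ring]
          exact ih
  have h1 := hev β
  rw [sub_self, zero_pow (by omega), zero_mul, mul_zero] at h1
  have h2 := hno 0
  have h3 := hno 1
  rw [Int.cast_zero, add_zero] at h2
  rw [Int.cast_one] at h3
  exact mul_ne_zero (mul_ne_zero h2 h3) hW h1.symm

/-- the coefficients of the difference equations of the shifted Hurwitz zeta functions -/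
noncomputable def ab (e : ℕ) (α : ℂ) : KK := (algebraMap ℂ[X] KK (X + C α) ^ e)⁻¹

lemma aXC_ne (α : ℂ) : algebraMap ℂ[X] KK (X + C α) ≠ 0 := by
  rw [Ne, FaithfulSMul.algebraMap_eq_zero_iff]
  exact X_add_C_ne_zero α

/-- the hypothesis of `ideal_trivial` -/
theorem H_ab {κ : Type} [Fintype κ] (e : κ → ℕ) (α : κ → ℂ)
    (hinj : ∀ k l, e k = e l → α k = α l → k = l)
    (hα : ∀ k l, (∃ m : ℤ, α k - α l = m) → α k = α l) (he1 : ∀ k, 1 ≤ e k) :
    ∀ (g : KK) (c : κ → KK), (∀ k, tau (c k) = c k) → tau g - g = ∑ k, c k * ab (e k) (α k) →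
      ∀ k, c k = 0 := by
  classical
  intro g c hc hg
  choose r hr using fun k => tau_const (c k) (hc k)
  by_contra hne
  push Not at hne
  obtain ⟨k1, hk1⟩ := hne
  have hrk1 : r k1 ≠ 0 := fun h => hk1 (by rw [hr, h, C_0, map_zero])
  set S1 := Finset.univ.filter fun k => α k = α k1 ∧ r k ≠ 0 with hS1
  set S2 := Finset.univ.filter fun k => α k ≠ α k1 with hS2
  obtain ⟨k0, hk0, hmax⟩ := Finset.exists_max_image S1 e ⟨k1, by simp [hS1, hrk1]⟩
  rw [hS1, Finset.mem_filter] at hk0
  set M := e k0 with hM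
  set β : ℂ := -α k1 with hβ
  set D : ℂ[X] := ∏ l ∈ S2, (X + C (α l)) ^ e l with hD
  set N : ℂ[X] := ∑ k ∈ S2, C (r k) * ∏ l ∈ S2.erase k, (X + C (α l)) ^ e l with hN
  set W1 : ℂ[X] := ∑ k ∈ S1, C (r k) * (X - C β) ^ (M - e k) with hW1
  set W : ℂ[X] := W1 * D + (X - C β) ^ M * N with hW
  have hXβ : (X - C β : ℂ[X]) = X + C (α k1) := by rw [hβ, C_neg, sub_neg_eq_add]
  have hDev : ∀ m : ℤ, D.eval (β + m) ≠ 0 := by
    intro m
    rw [hD, eval_prod]
    refine Finset.prod_ne_zero_iff.2 fun l hl => ?_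
    rw [eval_pow, eval_add, eval_X, eval_C]
    refine pow_ne_zero _ fun h => ?_
    rw [hS2, Finset.mem_filter] at hl
    refine hl.2 (hα l k1 ⟨-m, ?_⟩)
    push_cast
    rw [hβ] at h
    linear_combination h
  have hW1ev : W1.eval β = r k0 := by
    rw [hW1, eval_finsetSum, Finset.sum_eq_single k0]
    · rw [hM, Nat.sub_self, pow_zero, mul_one, eval_C]
    · intro k hk hkk
      rw [eval_mul, eval_pow, eval_sub, eval_X, eval_C, eval_C, sub_self, zero_pow, mul_zero]
      have h1 := hmax k hk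
      rw [hS1, Finset.mem_filter] at hk
      have h2 : e k ≠ e k0 := fun h => hkk (hinj _ _ h (hk.2.1.trans hk0.2.1.symm))
      omega
    · intro h
      exact absurd (by rw [hS1, Finset.mem_filter]; exact ⟨Finset.mem_univ k0, hk0.2⟩) h
  have hW0 : W.eval β ≠ 0 := by
    rw [hW, eval_add, eval_mul, eval_mul, eval_pow, eval_sub, eval_X, eval_C, sub_self,
      zero_pow (by have := he1 k0; omega), zero_mul, add_zero, hW1ev]
    have := hDev 0
    rw [Int.cast_zero, add_zero] at this
    exact mul_ne_zero hk0.2.2 this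
  have hXn := aXC_ne (α k1)
  have hD0 : algebraMap ℂ[X] KK D ≠ 0 := by
    rw [Ne, FaithfulSMul.algebraMap_eq_zero_iff]
    rintro h
    have := hDev 0
    rw [h, eval_zero] at this
    exact this rfl
  have hsum1 : ∑ k ∈ S1, c k * ab (e k) (α k) =
      algebraMap ℂ[X] KK W1 / algebraMap ℂ[X] KK (X + C (α k1)) ^ M := by
    rw [hW1, map_sum, Finset.sum_div]
    refine Finset.sum_congr rfl fun k hk => ?_
    have h2 := hmax k hk
    rw [hS1, Finset.mem_filter] at hk
    rw [hr, map_mul, map_pow, ab, hk.2.1, hXβ, eq_div_iff (pow_ne_zero _ hXn), mul_assoc]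
    congr 1
    rw [inv_mul_eq_iff_eq_mul₀ (pow_ne_zero _ hXn), ← pow_add]
    congr 1
    omega
  have hsum2 : ∑ k ∈ S2, c k * ab (e k) (α k) = algebraMap ℂ[X] KK N / algebraMap ℂ[X] KK D := by
    rw [hN, map_sum, Finset.sum_div]
    refine Finset.sum_congr rfl fun k hk => ?_
    rw [eq_div_iff hD0, hD, ← Finset.mul_prod_erase S2 _ hk, map_mul, map_mul, ab, hr, map_pow]
    have := pow_ne_zero (e k) (aXC_ne (α k))
    field_simp
  have hsum : ∑ k, c k * ab (e k) (α k) =
      algebraMap ℂ[X] KK W / algebraMap ℂ[X] KK ((X - C β) ^ M * D) := by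
    have h1 : ∑ k, c k * ab (e k) (α k) =
        ∑ k ∈ S1, c k * ab (e k) (α k) + ∑ k ∈ S2, c k * ab (e k) (α k) := by
      rw [← Finset.sum_filter_add_sum_filter_not Finset.univ (fun k => α k = α k1)]
      congr 1
      symm
      refine Finset.sum_subset (fun k hk => ?_) fun k hk hk2 => ?_
      · rw [hS1, Finset.mem_filter] at hk
        exact Finset.mem_filter.2 ⟨hk.1, hk.2.1⟩
      · rw [Finset.mem_filter] at hk
        have h3 : r k = 0 := by
          by_contra h3
          exact hk2 (by rw [hS1, Finset.mem_filter]; exact ⟨hk.1, hk.2, h3⟩)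
        rw [hr, h3, C_0, map_zero, zero_mul]
    rw [h1, hsum1, hsum2, hXβ, map_mul, map_pow, div_add_div _ _ (pow_ne_zero _ hXn) hD0, hW, hXβ]
    simp only [map_add, map_mul, map_pow]
  obtain ⟨p, q, hpq, hmk⟩ := IsFractionRing.exists_reduced_fraction (A := ℂ[X]) g
  have hq0 : (q : ℂ[X]) ≠ 0 := nonZeroDivisors.ne_zero q.2
  have hq1 : algebraMap ℂ[X] KK q ≠ 0 := by
    rw [Ne, FaithfulSMul.algebraMap_eq_zero_iff]
    exact hq0
  have hq2 : algebraMap ℂ[X] KK (sh q) ≠ 0 := by
    rw [Ne, FaithfulSMul.algebraMap_eq_zero_iff]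
    exact fun h => hq0 (sh_inj (by rw [h, map_zero]))
  rw [IsFractionRing.mk'_eq_div] at hmk
  rw [← hmk, hsum, map_div₀, tau_algebraMap, tau_algebraMap] at hg
  refine no_solution' (p := p) (q := q) (W := W) (M := M) (D := D) β (he1 k0) hq0 hpq hW0 hDev ?_
  apply IsFractionRing.injective ℂ[X] KK
  have hX : algebraMap ℂ[X] KK ((X - C β) ^ M * D) ≠ 0 := by
    rw [map_mul, map_pow, hXβ]
    exact mul_ne_zero (pow_ne_zero _ hXn) hD0
  rw [div_sub_div _ _ hq2 hq1, div_eq_div_iff (mul_ne_zero hq2 hq1) hX] at hg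
  simp only [map_mul, map_sub, map_pow] at hg ⊢
  linear_combination hg

end Pool.Agent.X142.AZ
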