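import Mathlib
import Pool.Agent.X142.AZ.RatShift
import Pool.Agent.X142.AZ.Hurw

/-!
# Shifted Hurwitz zeta functions and the digamma function
-/

set_option autoImplicit false

namespace Pool.Agent.X142.AZ

open Filter Topology MvPolynomial

variable {κ : Type} [Fintype κ]

lemma evG_Sh' (F : κ → ℝ → ℂ) (e : κ → ℕ) (α : κ → ℂ)
    (hF : ∀ k, ∀ᶠ t : ℝ in atTop, F k (t + 1) = F k t - (((t : ℂ) + α k) ^ e k)⁻¹)
    (P : MvPolynomial κ KK) :
    evG F (Sh tau (fun k => ab (e k) (α k)) P) = sig (evG F P) := by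
  have h : (evG F).comp (Sh tau fun k => ab (e k) (α k)) = sig.comp (evG F) := by
    apply MvPolynomial.ringHom_ext
    · intro r
      simp only [RingHom.comp_apply, Sh_C, evG, coe_eval₂Hom, eval₂_C]
      exact phi_tau r
    · intro k
      simp only [RingHom.comp_apply, Sh_X, evG, coe_eval₂Hom, eval₂_sub, eval₂_X, eval₂_C]
      have h1 : phi (ab (e k) (α k)) = ((fun t : ℝ => (((t : ℂ) + α k) ^ e k)⁻¹ : ℝ → ℂ) : GG) := by
        have h2 : phi (ab (e k) (α k)) *
            phi (algebraMap (Polynomial ℂ) KK ((Polynomial.X + Polynomial.C (α k)) ^ e k)) = 1 := by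
          rw [← map_mul, ab, map_pow, inv_mul_cancel₀ (pow_ne_zero _ (aXC_ne (α k))), map_one]
        have h3 : ((fun t : ℝ => (((t : ℂ) + α k) ^ e k)⁻¹ : ℝ → ℂ) : GG) *
            phi (algebraMap (Polynomial ℂ) KK ((Polynomial.X + Polynomial.C (α k)) ^ e k)) = 1 := by
          rw [phi_algebraMap, ph0_apply, ← Germ.coe_mul]
          refine Germ.coe_eq.2 ?_
          filter_upwards [eventually_gt_atTop (-(α k).re)] with t ht
          have h4 : (t : ℂ) + α k ≠ 0 := by
            intro h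
            have h5 := congrArg Complex.re h
            rw [Complex.add_re, Complex.ofReal_re, Complex.zero_re] at h5
            linarith
          simp only [Pi.mul_apply, Polynomial.eval_pow, Polynomial.eval_X, Polynomial.eval_add,
            Polynomial.eval_C]
          exact inv_mul_cancel₀ (pow_ne_zero _ h4)
        exact (IsUnit.of_mul_eq_one_right _ h2).mul_right_cancel (h2.trans h3.symm)
      rw [h1, ← Germ.coe_sub]
      refine Germ.coe_eq.2 ?_
      filter_upwards [hF k] with t ht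
      exact ht.symm
  exact congrArg (fun f => f P) h

/-- solutions of the difference equations are algebraically independent over `ℂ(z)` -/
theorem indep_diff' (m : MonomialOrder κ) (F : κ → ℝ → ℂ) (e : κ → ℕ) (α : κ → ℂ)
    (hinj : ∀ k l, e k = e l → α k = α l → k = l)
    (hα : ∀ k l, (∃ m : ℤ, α k - α l = m) → α k = α l) (he1 : ∀ k, 1 ≤ e k)
    (hF : ∀ k, ∀ᶠ t : ℝ in atTop, F k (t + 1) = F k t - (((t : ℂ) + α k) ^ e k)⁻¹)
    (P : MvPolynomial (Option κ) ℂ)
    (hP : ∀ᶠ t : ℝ in atTop, eval (fun o : Option κ => o.elim (t : ℂ) fun k => F k t) P = 0) :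
    P = 0 := by
  have h0 : evG F (Th P) = 0 := by
    rw [evG_Th]
    refine Germ.coe_eq.2 ?_
    filter_upwards [hP] with t ht
    exact ht
  have h1 := ideal_trivial tau (fun k => ab (e k) (α k)) m (H_ab e α hinj hα he1)
    (RingHom.ker (evG F)) ?_ ?_ (Th P) h0
  · exact Th_inj (h1.trans (map_zero _).symm)
  · rw [RingHom.mem_ker, map_one]
    exact one_ne_zero
  · intro Q hQ
    rw [RingHom.mem_ker] at hQ ⊢
    rw [evG_Sh' F e α hF, hQ, map_zero]

/-- minus the digamma function for `k = 1`, the Hurwitz zeta function for `k ≥ 2` -/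
noncomputable def hd (k : ℕ) (z : ℂ) : ℂ := if k = 1 then -Complex.digamma z else hz k z

lemma hd_analytic {k : ℕ} (hk : 1 ≤ k) {z : ℂ} (hz0 : ∀ n : ℕ, z ≠ -n) : AnalyticAt ℂ (hd k) z := by
  by_cases h : k = 1
  · have h1 : hd k = fun z => -(deriv Complex.Gamma z / Complex.Gamma z) := by
      funext z
      rw [hd, if_pos h, Complex.digamma_def, logDeriv_apply]
    rw [h1]
    have h2 := Pool.Agent.Y771.RP.Gamma_analyticAt hz0
    exact (h2.deriv.div h2 (Complex.Gamma_ne_zero hz0)).neg
  · have h1 : hd k = hz k := by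
      funext z
      rw [hd, if_neg h]
    rw [h1]
    exact hz_analytic (by omega) hz0

lemma hd_succ {k : ℕ} (hk : 1 ≤ k) {z : ℂ} (hz0 : ∀ n : ℕ, z ≠ -n) :
    hd k (z + 1) = hd k z - (z ^ k)⁻¹ := by
  unfold hd
  by_cases h : k = 1
  · rw [if_pos h, if_pos h, Complex.digamma_apply_add_one z hz0, h, pow_one]
    ring
  · rw [if_neg h, if_neg h]
    exact hz_succ (by omega) z

/-- the domain -/
def OmS (α : κ → ℂ) : Set ℂ := (⋃ k, Set.range fun n : ℕ => -(n : ℂ) - α k)ᶜ

omit [Fintype κ] in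
lemma mem_OmS {α : κ → ℂ} {z : ℂ} : z ∈ OmS α ↔ ∀ k, ∀ n : ℕ, z + α k ≠ -n := by
  unfold OmS
  rw [Set.mem_compl_iff, Set.mem_iUnion, not_exists]
  refine forall_congr' fun k => ?_
  rw [Set.mem_range, not_exists]
  refine forall_congr' fun n => not_congr ?_
  constructor
  · rintro rfl
    ring
  · intro h
    linear_combination -h

lemma OmS_pc (α : κ → ℂ) : IsPreconnected (OmS α) :=
  isPreconnected_compl (Set.countable_iUnion fun _ => Set.countable_range _)

/-- shifted Hurwitz zeta and digamma functions are algebraically independent over `ℂ(z)` -/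
theorem locIndS (m : MonomialOrder κ) (e : κ → ℕ) (α : κ → ℂ)
    (hinj : ∀ k l, e k = e l → α k = α l → k = l)
    (hα : ∀ k l, (∃ m : ℤ, α k - α l = m) → α k = α l) (he1 : ∀ k, 1 ≤ e k) {z : ℂ}
    (hz0 : ∀ k, ∀ n : ℕ, z + α k ≠ -n) :
    Pool.Agent.Y124.LocInd (fun k z => hd (e k) (z + α k)) z := by
  refine Pool.Agent.Y771.RP.locInd_of (fun k z => hd (e k) (z + α k)) (OmS α) (OmS_pc α)
    (fun y t ht => ?_) ?_ z (mem_OmS.2 hz0)
  · have h1 : AnalyticAt ℂ (fun z : ℂ => z + α y) t := analyticAt_id.add analyticAt_const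
    exact (hd_analytic (he1 y) (mem_OmS.1 ht y)).comp_of_eq h1 rfl
  intro P hP
  have hev : ∀ k, ∀ᶠ t : ℝ in atTop, ∀ n : ℕ, (t : ℂ) + α k ≠ -n := by
    intro k
    filter_upwards [eventually_gt_atTop (-(α k).re)] with t ht n h
    have h5 := congrArg Complex.re h
    rw [Complex.add_re, Complex.ofReal_re, Complex.neg_re, Complex.natCast_re] at h5
    have h2 : (0 : ℝ) ≤ n := Nat.cast_nonneg n
    linarith
  refine indep_diff' m (fun k t => hd (e k) ((t : ℂ) + α k)) e α hinj hα he1 ?_ P ?_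
  · intro k
    filter_upwards [hev k] with t ht
    have h1 := hd_succ (he1 k) ht
    rw [← h1]
    push_cast
    ring_nf
  · filter_upwards [Filter.eventually_all.2 hev] with t ht
    exact hP t (mem_OmS.2 ht)

end Pool.Agent.X142.AZ
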