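import Mathlib
import Pool.Agent.X142.AZ.HurwShift
import Pool.Agent.X142.AZ.Few

/-!
# Sums over residue classes
-/

set_option autoImplicit false

namespace Pool.Agent.X142.AZ

open Filter Topology MvPolynomial

lemma eval_aevalC {σ : Type} (x : σ → ℂ) (g : σ → MvPolynomial σ ℂ) (P : MvPolynomial σ ℂ) :
    eval x (aeval g P) = eval (fun o => eval x (g o)) P := by
  have h := MvPolynomial.comp_aeval_apply (R := ℂ) g (MvPolynomial.aeval x) P
  rw [MvPolynomial.aeval_eq_eval] at h
  rw [h, MvPolynomial.aeval_eq_eval]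

lemma locInd_scale {κ : Type} (f : κ → ℂ → ℂ) (c : κ → ℂ) (hc : ∀ y, c y ≠ 0) (q : ℂ) (hq : q ≠ 0) {z : ℂ}
    (h : Pool.Agent.Y124.LocInd f (z / q)) :
    Pool.Agent.Y124.LocInd (fun y t => c y * f y (t / q)) z := by
  intro P hP
  set g : Option κ → MvPolynomial (Option κ) ℂ := fun o => o.elim (C q * X none) fun y => C (c y) * X (some y)
    with hg
  set g' : Option κ → MvPolynomial (Option κ) ℂ := fun o => o.elim (C q⁻¹ * X none) fun y => C (c y)⁻¹ * X (some y)
    with hg'
  have h1 : aeval g P = 0 := by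
    apply h
    have ht : Tendsto (fun t : ℂ => q * t) (𝓝 (z / q)) (𝓝 z) := by
      have h2 : Tendsto (fun t : ℂ => q * t) (𝓝 (z / q)) (𝓝 (q * (z / q))) :=
        (continuous_const.mul continuous_id).continuousAt
      rwa [mul_div_cancel₀ _ hq] at h2
    filter_upwards [ht.eventually hP] with t hPt
    rw [eval_aevalC, ← hPt]
    congr 2
    funext o
    cases o with
    | none => simp [hg]
    | some y => simp [hg, hq]
  have h2 : (aeval g').comp (aeval g) = AlgHom.id ℂ (MvPolynomial (Option κ) ℂ) := by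
    apply MvPolynomial.algHom_ext
    intro o
    rw [AlgHom.comp_apply, aeval_X, AlgHom.id_apply]
    cases o with
    | none =>
      simp only [hg, hg', Option.elim_none, map_mul, aeval_X, algHom_C, algebraMap_eq]
      rw [← mul_assoc, ← map_mul, mul_inv_cancel₀ hq, C_1, one_mul]
    | some y =>
      simp only [hg, hg', Option.elim_some, map_mul, aeval_X, algHom_C, algebraMap_eq]
      rw [← mul_assoc, ← map_mul, mul_inv_cancel₀ (hc y), C_1, one_mul]
  have h3 : aeval g' (aeval g P) = P := by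
    have := congrArg (fun f => f P) h2
    simpa using this
  rw [← h3, h1, map_zero]

/-- no order needed -/
theorem locIndS' {κ : Type} [Fintype κ] (e : κ → ℕ) (α : κ → ℂ)
    (hinj : ∀ k l, e k = e l → α k = α l → k = l)
    (hα : ∀ k l, (∃ m : ℤ, α k - α l = m) → α k = α l) (he1 : ∀ k, 1 ≤ e k) {z : ℂ}
    (hz0 : ∀ k, ∀ n : ℕ, z + α k ≠ -n) :
    Pool.Agent.Y124.LocInd (fun k z => hd (e k) (z + α k)) z := by
  have h1 := locIndS (κ := Fin (Fintype.card κ)) MonomialOrder.lex
    (fun j => e ((Fintype.equivFin κ).symm j)) (fun j => α ((Fintype.equivFin κ).symm j))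
    (fun k l h h' => (Fintype.equivFin κ).symm.injective (hinj _ _ h h'))
    (fun k l h => hα _ _ h) (fun k => he1 _) (z := z) (fun k => hz0 _)
  have h2 := locInd_equiv (Fintype.equivFin κ) _ h1
  simpa only [Equiv.symm_apply_apply] using h2

/-- the sum of `(z + n)^(-k)` over `n ≡ a` modulo `q` -/
noncomputable def res (q k a : ℕ) (z : ℂ) : ℂ := ∑' n : ℕ, ((z + ((a + q * n : ℕ) : ℂ)) ^ k)⁻¹

lemma res_eq {q : ℕ} (hq : q ≠ 0) (k a : ℕ) (z : ℂ) :
    res q k a z = ((q : ℂ) ^ k)⁻¹ * hz k (z / q + a / q) := by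
  have hq0 : (q : ℂ) ≠ 0 := by exact_mod_cast hq
  unfold res hz
  rw [← tsum_mul_left]
  refine tsum_congr fun n => ?_
  rw [← mul_inv, ← mul_pow]
  congr 2
  push_cast
  field_simp
  ring

lemma ne_of_ne {q : ℕ} (hq : q ≠ 0) {z : ℂ} (hz0 : ∀ n : ℕ, z ≠ -n) (a n : ℕ) :
    z / q + a / q ≠ -(n : ℂ) := by
  have hq0 : (q : ℂ) ≠ 0 := by exact_mod_cast hq
  intro h
  apply hz0 (a + q * n)
  field_simp at h
  push_cast
  linear_combination h

lemma res_analytic {q : ℕ} (hq : q ≠ 0) {k : ℕ} (hk : 2 ≤ k) (a : ℕ) {z : ℂ} (hz0 : ∀ n : ℕ, z ≠ -n) :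
    AnalyticAt ℂ (res q k a) z := by
  have h1 : res q k a = fun z => ((q : ℂ) ^ k)⁻¹ * hz k (z / q + a / q) := funext (res_eq hq k a)
  rw [h1]
  refine analyticAt_const.mul ?_
  have h2 : AnalyticAt ℂ (fun z : ℂ => z / q + a / q) z := by
    have h3 : AnalyticAt ℂ (fun z : ℂ => z * (q : ℂ)⁻¹) z := analyticAt_id.mul analyticAt_const
    exact (h3.congr (Eventually.of_forall fun z => (div_eq_mul_inv z _).symm)).add analyticAt_const
  exact (hz_analytic hk (fun n => ne_of_ne hq hz0 a n)).comp_of_eq h2 rfl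

theorem res_locInd {κ : Type} [Fintype κ] {q : ℕ} (hq : q ≠ 0) (e : κ → ℕ) (a : κ → ℕ)
    (hinj : ∀ k l, e k = e l → a k = a l → k = l) (ha : ∀ k, a k < q) (he : ∀ k, 2 ≤ e k) {z : ℂ}
    (hz0 : ∀ n : ℕ, z ≠ -n) : Pool.Agent.Y124.LocInd (fun k => res q (e k) (a k)) z := by
  have hq0 : (q : ℂ) ≠ 0 := by exact_mod_cast hq
  have h1 := locIndS' (z := z / q) e (fun k => (a k : ℂ) / q) (fun k l h h' => hinj k l h (by
      have h2 : (a k : ℂ) = a l := by
        field_simp at h'
        exact h'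
      exact_mod_cast h2)) (fun k l h => by
      obtain ⟨m, hm⟩ := h
      have h2 : (a k : ℂ) - a l = m * q := by
        field_simp at hm
        linear_combination hm
      have h3 : (a k : ℤ) - a l = m * q := by exact_mod_cast h2
      have h4 : m = 0 := by
        have h5 := ha k
        have h6 := ha l
        have h7 : |m * (q : ℤ)| < q := by
          rw [← h3, abs_lt]
          omega
        rw [abs_mul, abs_of_nonneg (by omega : (0 : ℤ) ≤ q)] at h7
        have h8 : |m| < 1 := by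
          by_contra h9
          push Not at h9
          nlinarith
        exact Int.abs_lt_one_iff.1 h8
      rw [h4, zero_mul, sub_eq_zero] at h3
      have h9 : a k = a l := by exact_mod_cast h3
      rw [h9]) (fun k => (he k).trans' (by norm_num)) (fun k n => ne_of_ne hq hz0 (a k) n)
  have h2 := locInd_scale (z := z) _ (fun k => ((q : ℂ) ^ e k)⁻¹)
    (fun k => inv_ne_zero (pow_ne_zero _ hq0)) q hq0 h1
  have h3 : (fun k => res q (e k) (a k)) = fun (y : κ) (t : ℂ) =>
      ((q : ℂ) ^ e y)⁻¹ * hd (e y) (t / q + (a y : ℂ) / q) := by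
    funext y t
    rw [res_eq hq, hd, if_neg (by have := he y; omega)]
  rw [h3]
  exact h2

/-- sums with periodic coefficients -/
lemma twisted_eq {q : ℕ} [NeZero q] {k : ℕ} (hk : 2 ≤ k) (f : ℕ → ℤ) (hf : ∀ n, f (n + q) = f n) (z : ℂ) :
    ∑' n : ℕ, (f n : ℂ) * ((z + n) ^ k)⁻¹ = ∑ a : Fin q, (f a : ℂ) * res q k a z := by
  have hper : ∀ a m, f (a + q * m) = f a := by
    intro a m
    induction m with
    | zero => simp
    | succ m ih => rw [mul_add, mul_one, ← add_assoc, hf, ih]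
  have hb : ∀ n, |(f n : ℝ)| ≤ ∑ a ∈ Finset.range q, |(f a : ℝ)| := by
    intro n
    have h1 : f n = f (n % q) := by
      conv_lhs => rw [← Nat.mod_add_div n q]
      exact hper _ _
    rw [h1]
    exact Finset.single_le_sum (f := fun a => |(f a : ℝ)|) (fun _ _ => abs_nonneg _)
      (Finset.mem_range.2 (Nat.mod_lt _ (Nat.pos_of_ne_zero (NeZero.ne q))))
  have hs : Summable fun n : ℕ => (f n : ℂ) * ((z + n) ^ k)⁻¹ := by
    obtain ⟨N, hN⟩ := exists_N z
    rw [← summable_nat_add_iff N]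
    refine Summable.of_norm_bounded ((summable_shiftH hk).mul_left (∑ a ∈ Finset.range q, |(f a : ℝ)|)) ?_
    intro n
    rw [norm_mul]
    refine mul_le_mul ?_ (hz_bound k hN n) (norm_nonneg _) (Finset.sum_nonneg fun _ _ => abs_nonneg _)
    rw [Complex.norm_intCast]
    exact hb _
  rw [Nat.sumByResidueClasses hs q]
  have h1 : ∀ j : ZMod q, ∑' m : ℕ, (f (j.val + q * m) : ℂ) * ((z + ((j.val + q * m : ℕ) : ℂ)) ^ k)⁻¹ =
      (f j.val : ℂ) * res q k j.val z := by
    intro j
    unfold res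
    rw [← tsum_mul_left]
    refine tsum_congr fun m => ?_
    rw [hper]
  rw [Finset.sum_congr rfl fun j _ => h1 j]
  obtain ⟨q', rfl⟩ := Nat.exists_eq_succ_of_ne_zero (NeZero.ne q)
  rfl

end Pool.Agent.X142.AZ
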