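import Mathlib
import Pool.Agent.X142.AZ.Few
import Pool.Agent.X142.DN.Int
import Pool.Agent.TH456.TM.Inst

/-!
# Polynomial relations over `ℤ[ω]` at rational arguments, `ω` a number with a transcendence measure
-/

set_option autoImplicit false

namespace Pool.Agent.X142.AZ

open Filter Topology MvPolynomial NumberField

/-- For all but `C T^ε` arguments in a number field there is no small polynomial relation over `ℤ[ω]`
between the values `v_y(x)`. -/
theorem fewPi {κ : Type} [Fintype κ] (v : κ → ℂ → ℂ) (L : Set ℂ) (hL : IsCompact L)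
    (han : ∀ y, ∀ t ∈ L, AnalyticAt ℂ (v y) t) (hind : ∀ t ∈ L, Pool.Agent.Y124.LocInd v t)
    (ω : ℂ) (hω : Pool.Agent.TH456.TM.MeasT ω) (m : ℕ) (A ε : ℝ) (hε : 0 < ε) :
    ∃ B C T₀ : ℝ, 2 ≤ T₀ ∧ ∀ (F : Type) [Field F] [NumberField F], Module.finrank ℚ F ≤ m →
      ∀ (ι : F →+* ℂ) (T : ℝ), T₀ ≤ T →
      (({x : F | ι x ∈ L ∧
        (∃ a c : 𝓞 F, c ≠ 0 ∧ (∀ φ : F →+* ℂ, ‖φ a‖ ≤ T ∧ ‖φ c‖ ≤ T) ∧ x = a / c) ∧
        ∃ Q : MvPolynomial κ (Polynomial ℤ), Q ≠ 0 ∧ (∀ y, Q.degreeOf y ≤ m) ∧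
          (∀ s, (Q.coeff s).natDegree ≤ m) ∧ (∀ s i, |(((Q.coeff s).coeff i : ℤ) : ℝ)| ≤ T ^ A) ∧
          ‖Q.eval₂ (Polynomial.aeval ω).toRingHom (fun y => v y (ι x))‖ ≤ T ^ (-B)}.ncard : ℕ) : ℝ) ≤
        C * T ^ ε := by
  classical
  obtain ⟨B, C, T₀, H⟩ := Pool.Agent.Y771.RP.main' m 1 (m + 1) m v L hL han hind A ε hε
  obtain ⟨μ, c, hμ, hc, hM⟩ := hω m
  refine ⟨B + (|A| * μ + 1), |C|, max (max T₀ 2) c⁻¹, (le_max_right _ _).trans (le_max_left _ _), ?_⟩
  intro F _ _ hF ι T hT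
  have hTT₀ : T₀ ≤ T := (le_max_left _ _).trans ((le_max_left _ _).trans hT)
  have hT2 : 2 ≤ T := (le_max_right _ _).trans ((le_max_left _ _).trans hT)
  have hTc : c⁻¹ ≤ T := (le_max_right _ _).trans hT
  have hT0 : 0 < T := by linarith
  refine Pool.Agent.X142.DN.ncard_le (by positivity) fun S hS => ?_
  obtain ⟨hfin, hcard⟩ := H F hF ι (fun i => ω ^ (i : ℕ)) T hTT₀
  rw [Nat.sub_self, pow_zero, mul_one] at hcard
  have hmem : ∀ x ∈ S, (fun _ => x : Fin 1 → F) ∈
      Pool.Agent.Y771.RP.Exc 1 m F ι (fun i : Fin (m + 1) => ω ^ (i : ℕ)) (fun _ => v)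
        (fun _ => L) A B T := by
    intro x hx
    obtain ⟨hxL, hxh, Q, hQ0, hQm, hQd, hQA, hQs⟩ := hS x hx
    refine ⟨fun _ => ⟨hxL, hxh⟩, ?_⟩
    have hinj : Function.Injective (fun y : κ => ((0 : Fin 1), y)) := fun a b h => (Prod.mk.inj h).2
    set Φ : Polynomial ℤ →+* ℂ := (Polynomial.aeval ω).toRingHom with hΦ
    set P : MvPolynomial (Fin 1 × κ) ℂ := rename (fun y => ((0 : Fin 1), y)) (MvPolynomial.map Φ Q) with hP
    obtain ⟨s0, hs0⟩ : ∃ s, Q.coeff s ≠ 0 := by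
      by_contra h
      push Not at h
      exact hQ0 (MvPolynomial.ext _ _ fun s => by rw [h s, coeff_zero])
    have hcoef : ∀ s, P.coeff (s.mapDomain fun y => ((0 : Fin 1), y)) = Φ (Q.coeff s) := by
      intro s
      rw [hP, coeff_rename_mapDomain _ hinj, coeff_map]
    have hΦs : ∀ s, Φ (Q.coeff s) = ∑ i : Fin (m + 1), ω ^ (i : ℕ) * ((Q.coeff s).coeff i : ℂ) := by
      intro s
      rw [hΦ]
      show Polynomial.aeval ω (Q.coeff s) = _
      rw [Polynomial.aeval_eq_sum_range' (Nat.lt_succ_of_le (hQd s)),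
        ← Fin.sum_univ_eq_sum_range (fun i => (Q.coeff s).coeff i • ω ^ i) (m + 1)]
      refine Finset.sum_congr rfl fun i _ => ?_
      rw [zsmul_eq_mul, mul_comm]
    have hT1 : (1 : ℝ) ≤ T ^ |A| := Real.one_le_rpow (by linarith) (abs_nonneg A)
    have hlow : T ^ (-(|A| * μ + 1)) ≤ ‖Φ (Q.coeff s0)‖ := by
      have h1 := hM (Q.coeff s0) hs0 (hQd s0) (T ^ |A|) hT1 fun j =>
        (hQA s0 j).trans (Real.rpow_le_rpow_of_exponent_le (by linarith) (le_abs_self A))
      rw [← Real.rpow_mul hT0.le] at h1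
      have h2 : ‖Φ (Q.coeff s0)‖ = ‖Polynomial.aeval ω (Q.coeff s0)‖ := rfl
      rw [h2, neg_add, Real.rpow_add hT0, Real.rpow_neg hT0.le, Real.rpow_neg_one]
      have h3 : 0 < T ^ (|A| * μ) := Real.rpow_pos_of_pos hT0 _
      rw [inv_mul_le_iff₀ h3]
      refine le_trans ?_ h1
      exact inv_le_of_inv_le₀ hc hTc
    refine ⟨P, ?_, ?_, s0.mapDomain fun y => ((0 : Fin 1), y), ?_, ?_⟩
    · rintro ⟨j, y⟩
      have hj : j = 0 := Subsingleton.elim _ _
      rw [hj, hP, degreeOf_rename_of_injective hinj]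
      refine le_trans ?_ (hQm y)
      rw [degreeOf_le_iff]
      intro s hs
      exact (degreeOf_le_iff.1 le_rfl) s (support_map_subset Φ Q hs)
    · intro s
      by_cases hs : ∃ s', Finsupp.mapDomain (fun y => ((0 : Fin 1), y)) s' = s
      · obtain ⟨s', rfl⟩ := hs
        refine ⟨fun i => ((Q.coeff s').coeff i : ℤ), ?_, ?_⟩
        · intro i φ
          have h1 : φ ((((Q.coeff s').coeff i : ℤ) : 𝓞 F) : F) = ((Q.coeff s').coeff i : ℂ) := by
            rw [show ((((Q.coeff s').coeff i : ℤ) : 𝓞 F) : F) = (((Q.coeff s').coeff i : ℤ) : F) by simp,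
              map_intCast]
          rw [h1, Complex.norm_intCast]
          exact hQA s' i
        · rw [hcoef, hΦs]
          refine Finset.sum_congr rfl fun i _ => ?_
          have h1 : ι ((((Q.coeff s').coeff i : ℤ) : 𝓞 F) : F) = ((Q.coeff s').coeff i : ℂ) := by
            rw [show ((((Q.coeff s').coeff i : ℤ) : 𝓞 F) : F) = (((Q.coeff s').coeff i : ℤ) : F) by simp,
              map_intCast]
          rw [h1]
      · refine ⟨fun _ => 0, ?_, ?_⟩
        · intro i φ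
          have h1 : φ (((0 : 𝓞 F)) : F) = 0 := by simp
          rw [h1, norm_zero]
          exact (Real.rpow_pos_of_pos hT0 A).le
        · rw [hP, coeff_rename_eq_zero _ _ _ fun u hu => absurd ⟨u, hu⟩ hs]
          simp
    · rw [hcoef]
      intro h
      rw [h, norm_zero] at hlow
      have := Real.rpow_pos_of_pos hT0 (-(|A| * μ + 1))
      linarith
    · rw [hcoef]
      have h1 : MvPolynomial.aeval (fun y : Fin 1 × κ => v y.2 (ι x)) P =
          Q.eval₂ Φ fun y => v y (ι x) := by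
        rw [hP, aeval_rename, aeval_def, eval₂_map]
        rfl
      rw [h1]
      refine hQs.trans ?_
      rw [neg_add B, Real.rpow_add hT0]
      exact mul_le_mul_of_nonneg_left hlow (Real.rpow_pos_of_pos hT0 _).le
  have h1 : (S.image fun x => (fun _ => x : Fin 1 → F)).card = S.card :=
    Finset.card_image_of_injective _ fun x y h => congrFun h 0
  have h2 : ((S.image fun x => (fun _ => x : Fin 1 → F)) : Set (Fin 1 → F)) ⊆
      Pool.Agent.Y771.RP.Exc 1 m F ι (fun i : Fin (m + 1) => ω ^ (i : ℕ)) (fun _ => v)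
        (fun _ => L) A B T := by
    intro t ht
    obtain ⟨x, hx, rfl⟩ := Finset.mem_image.1 (Finset.mem_coe.1 ht)
    exact hmem x hx
  have h3 := Set.ncard_le_ncard h2 hfin
  rw [Set.ncard_coe_finset, h1] at h3
  have h4 : (S.card : ℝ) ≤ _ := (Nat.cast_le.2 h3).trans hcard
  exact h4.trans (mul_le_mul_of_nonneg_right (le_abs_self C) (Real.rpow_pos_of_pos hT0 _).le)

end Pool.Agent.X142.AZ
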