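import Mathlib
import Pool.Agent.X142.AZ.Hurw

/-!
# The quotients `ζ(2n, z) / ζ(n, z)^2`
-/

set_option autoImplicit false

namespace Pool.Agent.X142.AZ

open Filter Topology MvPolynomial

/-- exponents -/
def ex {M : ℕ} (D : ℕ) (i : Fin M → ℕ) (k : ℕ) : ℕ :=
  ∑ j : Fin M, ((if 2 * (j : ℕ) + 2 = k then i j else 0) + if (j : ℕ) = k then 2 * (D - i j) else 0)

lemma ex_inj {M D : ℕ} (i i' : Fin M → ℕ) (h : ∀ k, k < 2 * M + 2 → ex D i k = ex D i' k) : i = i' := by
  classical
  have key : ∀ n : ℕ, ∀ j : Fin M, M - (j : ℕ) ≤ n → i j = i' j := by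
    intro n
    induction n with
    | zero =>
      intro j hj
      have := j.2
      omega
    | succ n ih =>
      intro j hj
      have h1 := h (2 * (j : ℕ) + 2) (by have := j.2; omega)
      unfold ex at h1
      rw [Finset.sum_add_distrib, Finset.sum_add_distrib] at h1
      have h2 : ∀ f : Fin M → ℕ, (∑ j' : Fin M, if 2 * (j' : ℕ) + 2 = 2 * (j : ℕ) + 2 then f j' else 0) = f j := by
        intro f
        rw [Finset.sum_eq_single j]
        · rw [if_pos rfl]
        · intro j' _ hj'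
          rw [if_neg]
          intro h3
          exact hj' (Fin.ext (by omega))
        · intro h3
          exact absurd (Finset.mem_univ _) h3
      have h3 : (∑ j' : Fin M, if (j' : ℕ) = 2 * (j : ℕ) + 2 then 2 * (D - i j') else 0) =
          ∑ j' : Fin M, if (j' : ℕ) = 2 * (j : ℕ) + 2 then 2 * (D - i' j') else 0 := by
        refine Finset.sum_congr rfl fun j' _ => ?_
        by_cases h4 : (j' : ℕ) = 2 * (j : ℕ) + 2
        · rw [if_pos h4, if_pos h4, ih j' (by have := j'.2; omega)]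
        · rw [if_neg h4, if_neg h4]
      rw [h2, h2, h3] at h1
      exact Nat.add_right_cancel h1
  funext j
  exact key M j (by omega)

/-- the quotients -/
noncomputable def tt (j : ℕ) (z : ℂ) : ℂ := hz (2 * (j + 2)) z / hz (j + 2) z ^ 2

lemma tt_analytic {j : ℕ} {z : ℂ} (hz0 : ∀ n : ℕ, z ≠ -n) (h : hz (j + 2) z ≠ 0) : AnalyticAt ℂ (tt j) z :=
  (hz_analytic (by omega) hz0).div ((hz_analytic (by omega) hz0).pow 2) (pow_ne_zero _ h)

lemma prod_ex {M D : ℕ} (i : Fin M → ℕ) (hi : ∀ j, i j ≤ D) {z : ℂ}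
    (hne : ∀ j : Fin M, hz ((j : ℕ) + 2) z ≠ 0) :
    ∏ k : Fin (2 * M + 2), hz ((k : ℕ) + 2) z ^ ex D i k =
      (∏ j : Fin M, hz ((j : ℕ) + 2) z ^ (2 * D)) * ∏ j : Fin M, tt j z ^ i j := by
  classical
  unfold ex
  have h1 : ∀ k : Fin (2 * M + 2), hz ((k : ℕ) + 2) z ^
      (∑ j : Fin M, ((if 2 * (j : ℕ) + 2 = k then i j else 0) + if (j : ℕ) = k then 2 * (D - i j) else 0)) =
      ∏ j : Fin M, (hz ((k : ℕ) + 2) z ^ (if 2 * (j : ℕ) + 2 = k then i j else 0) *
        hz ((k : ℕ) + 2) z ^ (if (j : ℕ) = k then 2 * (D - i j) else 0)) := by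
    intro k
    rw [← Finset.prod_pow_eq_pow_sum]
    refine Finset.prod_congr rfl fun j _ => ?_
    rw [pow_add]
  rw [Finset.prod_congr rfl fun k _ => h1 k, Finset.prod_comm, ← Finset.prod_mul_distrib]
  refine Finset.prod_congr rfl fun j _ => ?_
  rw [Finset.prod_mul_distrib]
  have hj := j.2
  have h2 : ∏ k : Fin (2 * M + 2), hz ((k : ℕ) + 2) z ^ (if 2 * (j : ℕ) + 2 = (k : ℕ) then i j else 0) =
      hz (2 * ((j : ℕ) + 2)) z ^ i j := by
    rw [Finset.prod_eq_single (⟨2 * (j : ℕ) + 2, by omega⟩ : Fin (2 * M + 2))]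
    · rw [if_pos rfl]
      congr 1
    · intro k _ hk
      rw [if_neg, pow_zero]
      intro h3
      exact hk (Fin.ext h3.symm)
    · intro h3
      exact absurd (Finset.mem_univ _) h3
  have h3 : ∏ k : Fin (2 * M + 2), hz ((k : ℕ) + 2) z ^ (if (j : ℕ) = (k : ℕ) then 2 * (D - i j) else 0) =
      hz ((j : ℕ) + 2) z ^ (2 * (D - i j)) := by
    rw [Finset.prod_eq_single (⟨(j : ℕ), by omega⟩ : Fin (2 * M + 2))]
    · rw [if_pos rfl]
    · intro k _ hk
      rw [if_neg, pow_zero]
      intro h3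
      exact hk (Fin.ext h3.symm)
    · intro h3
      exact absurd (Finset.mem_univ _) h3
  rw [h2, h3, tt, div_pow, ← pow_mul]
  have h4 := hne j
  have h5 : 2 * D = 2 * i j + 2 * (D - i j) := by
    have := hi j
    omega
  rw [h5, pow_add]
  field_simp

theorem locIndT (M : ℕ) {z : ℂ} (hz0 : ∀ n : ℕ, z ≠ -n) (hne : ∀ j : Fin M, hz ((j : ℕ) + 2) z ≠ 0) :
    Pool.Agent.Y124.LocInd (fun j : Fin M => tt j) z := by
  classical
  intro P hP
  set D : ℕ := P.totalDegree with hD
  have hle : ∀ s ∈ P.support, ∀ o, s o ≤ D := by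
    intro s hs o
    by_cases h : o ∈ s.support
    · exact (Finset.single_le_sum (f := fun o => s o) (fun _ _ => Nat.zero_le _) h).trans (le_totalDegree hs)
    · rw [Finsupp.notMem_support_iff.1 h]
      exact Nat.zero_le _
  set E : (Option (Fin M) →₀ ℕ) → (Option (Fin (2 * M + 2)) →₀ ℕ) := fun s =>
    Finsupp.equivFunOnFinite.symm fun o => o.elim (s none) fun k => ex D (fun j => s (some j)) k with hE
  have hEinj : Function.Injective E := by
    intro s s' h
    have h1 := DFunLike.congr_fun h none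
    simp only [hE, Finsupp.equivFunOnFinite_symm_apply_apply, Option.elim_none] at h1
    have h2 := ex_inj (D := D) (fun j => s (some j)) (fun j => s' (some j)) fun k hk => by
      have := DFunLike.congr_fun h (some ⟨k, hk⟩)
      simpa only [hE, Finsupp.equivFunOnFinite_symm_apply_apply, Option.elim_some] using this
    ext o
    cases o with
    | none => exact h1
    | some j => exact congrFun h2 j
  set R : MvPolynomial (Option (Fin (2 * M + 2))) ℂ := ∑ s ∈ P.support, monomial (E s) (coeff s P) with hR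
  have hind := locIndH (κ := Fin (2 * M + 2)) MonomialOrder.lex (fun k => (k : ℕ) + 2)
    (fun i j h => Fin.ext (by simpa using h)) (fun k => by omega) hz0
  have hnear : ∀ᶠ t : ℂ in 𝓝 z, (∀ n : ℕ, t ≠ -(n : ℂ)) ∧ ∀ j : Fin M, hz ((j : ℕ) + 2) t ≠ 0 := by
    refine Filter.Eventually.and ?_ ?_
    · have h1 : ∀ᶠ t in 𝓝 z, AnalyticAt ℂ (fun s => (Complex.Gamma s)⁻¹) t ∧ (Complex.Gamma t)⁻¹ ≠ 0 := by
        have h2 := Pool.Agent.Y771.RP.inv_Gamma_analyticAt z
        refine h2.eventually_analyticAt.and ?_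
        exact h2.continuousAt.eventually_ne (inv_ne_zero (Complex.Gamma_ne_zero hz0))
      filter_upwards [h1] with t ht n h
      apply ht.2
      rw [h, Complex.Gamma_neg_nat_eq_zero, inv_zero]
    · rw [Filter.eventually_all]
      intro j
      exact (hz_analytic (by omega) hz0).continuousAt.eventually_ne (hne j)
  have hR0 : R = 0 := by
    apply hind
    filter_upwards [hP, hnear] with t hPt hnt
    have h1 : eval (fun o : Option (Fin (2 * M + 2)) => o.elim t fun k => hz ((k : ℕ) + 2) t) R =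
        (∏ j : Fin M, hz ((j : ℕ) + 2) t ^ (2 * D)) *
          eval (fun o : Option (Fin M) => o.elim t fun j => tt j t) P := by
      rw [hR, map_sum, eval_eq', Finset.mul_sum]
      refine Finset.sum_congr rfl fun s hs => ?_
      rw [eval_monomial, Finsupp.prod_fintype _ _ (fun _ => pow_zero _), Fintype.prod_option,
        Fintype.prod_option]
      simp only [Option.elim_none, Option.elim_some, hE, Finsupp.equivFunOnFinite_symm_apply_apply]
      rw [prod_ex (fun j => s (some j)) (fun j => hle s hs _) hnt.2]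
      ring
    rw [h1, hPt, mul_zero]
  ext s
  rw [coeff_zero]
  by_contra hs
  have h1 : coeff (E s) R = coeff s P := by
    rw [hR, coeff_sum, Finset.sum_eq_single s]
    · rw [coeff_monomial, if_pos rfl]
    · intro s' _ hs'
      rw [coeff_monomial, if_neg fun h => hs' (hEinj h)]
    · intro h
      exact absurd (mem_support_iff.2 hs) h
  rw [hR0, coeff_zero] at h1
  exact hs h1.symm

lemma hz_pos_ne {k : ℕ} (hk : 2 ≤ k) {x : ℝ} (hx : 0 < x) : hz k (x : ℂ) ≠ 0 := by
  have h1 : hz k (x : ℂ) = ((∑' n : ℕ, ((x + n) ^ k)⁻¹ : ℝ) : ℂ) := by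
    unfold hz
    push_cast
    rfl
  have hs : Summable fun n : ℕ => ((x + (n : ℝ)) ^ k)⁻¹ := by
    have h2 := summable_hz hk (x : ℂ)
    have h3 : (fun n : ℕ => (((x : ℂ) + (n : ℂ)) ^ k)⁻¹) = fun n : ℕ => ((((x + (n : ℝ)) ^ k)⁻¹ : ℝ) : ℂ) := by
      funext n
      push_cast
      rfl
    rw [h3] at h2
    exact Complex.summable_ofReal.1 h2
  rw [h1, Ne, Complex.ofReal_eq_zero]
  have h4 : 0 < ∑' n : ℕ, ((x + (n : ℝ)) ^ k)⁻¹ := by
    refine hs.tsum_pos (fun n => by positivity) 0 ?_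
    positivity
  exact h4.ne'

end Pool.Agent.X142.AZ
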